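import Pool.Agent.Lib.MP_640417_ag.FC.SpecB

/-!
# FE, part B, module BlkE: a family block contains a block
-/

set_option autoImplicit false

noncomputable section

namespace Pool.Agent.FC

open Finset

theorem tBlkE (h1 : S_FamHD) (h2 : S_HDRel) (h3 : S_Comp) : S_BlkE := by
  intro ι C K x D hF hne hD hx
  have hK : ∀ i ∈ C, K i ≠ 0 := ((fam_iff C K x).mp hF).1
  have hdiv : ∀ i ∈ C, (K i).natAbs ∣ (Icc 1 D).lcm id := by
    intro i hi
    have h4 := abs_le_of_sum hD hi
    have h5 : 1 ≤ (K i).natAbs := Int.natAbs_pos.mpr (hK i hi)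
    have h6 : (K i).natAbs ≤ D := by
      rw [Int.abs_eq_natAbs] at h4
      exact_mod_cast h4
    exact Finset.dvd_lcm (f := id) (Finset.mem_Icc.mpr ⟨h5, h6⟩)
  obtain ⟨C', hC', hne', hF', θ, hθ, hL⟩ := h3 ι C K x _ hF hne hdiv (fun i hi => (hx i hi).1)
  refine ⟨C', hC', hne', fun i => x i - K i • θ, ?_, ?_, ?_, ?_, ?_⟩
  · exact fun i hi => hK i (hC' hi)
  · exact (Finset.sum_le_sum_of_subset_of_nonneg hC' (fun i _ _ => abs_nonneg _)).trans hD
  · exact hL
  · exact ⟨θ, hθ, fun i _ => by simp⟩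
  · intro w hw hne0
    have key : ∀ i, K i • w + (x i - K i • θ) = K i • (w - θ) + x i := by
      intro i
      rw [smul_sub]
      abel
    have hfin : ∀ i ∈ C', IsOfFinAddOrder (K i • w + (x i - K i • θ)) := by
      intro i hi
      have h4 : IsOfFinAddOrder (x i - K i • θ) := by
        rw [sub_eq_add_neg]
        exact (hx i (hC' hi)).1.add hθ.zsmul.neg
      exact hw.zsmul.add h4
    have hHD : ∑ i ∈ C', Finsupp.single (K i • w + (x i - K i • θ)) (1 : ℤ) ∈ HD := by
      have h4 := h1 ι C' K x hF' (w - θ) (fun i hi => by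
        rw [← key]
        exact hne0 i hi)
      simp only [key]
      exact h4
    exact ⟨h2 ι C' _ hfin hHD, hHD⟩

end Pool.Agent.FC
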