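import Pool.Agent.Lib.MP_640417_ag.FC.SpecB

set_option autoImplicit false

noncomputable section

namespace Pool.Agent.FC

open Finset

private theorem BlkS_div (u : ℤ) (hu : u ≠ 0) (y : UnitAddCircle) :
    ∃ w : UnitAddCircle, u • w = y := by
  obtain ⟨r, rfl⟩ := QuotientAddGroup.mk_surjective y
  refine ⟨((r / u : ℝ) : UnitAddCircle), ?_⟩
  have h : (u : ℝ) ≠ 0 := by exact_mod_cast hu
  rw [← AddCircle.coe_zsmul]
  congr 1
  rw [zsmul_eq_mul]
  field_simp

private theorem BlkS_fin {u : ℤ} (hu : u ≠ 0) {w : UnitAddCircle} (h : IsOfFinAddOrder (u • w)) :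
    IsOfFinAddOrder w := by
  rw [isOfFinAddOrder_iff_nsmul_eq_zero] at h ⊢
  obtain ⟨n, hn, h⟩ := h
  refine ⟨n * u.natAbs, Nat.mul_pos hn (Int.natAbs_pos.2 hu), ?_⟩
  have h1 : ((n : ℤ) * u) • w = 0 := by
    rw [mul_zsmul, natCast_zsmul]
    exact h
  have h2 : ((n * u.natAbs : ℕ) : ℤ) • w = 0 := by
    push_cast
    rcases abs_choice u with h3 | h3
    · rw [h3]; exact h1
    · rw [h3, mul_neg, neg_zsmul, h1, neg_zero]
  rw [natCast_zsmul] at h2
  exact h2

theorem tBlkS (h1 : S_Sw) : S_BlkS := by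
  intro ι D s u c x hx hB
  obtain ⟨hu, -, hc, ⟨w0, hw0, hxw⟩, hrel⟩ := hB
  obtain ⟨-, h2, -, h4, -⟩ := h1
  refine ⟨?_, ?_⟩
  · intro hcard
    obtain ⟨i, rfl⟩ := Finset.card_eq_one.1 hcard
    have hi : i ∈ ({i} : Finset ι) := Finset.mem_singleton_self i
    have hL : (Icc 1 D).lcm id ≠ 0 := by
      rw [Ne, Finset.lcm_eq_zero_iff]
      simp
    have hcf : IsOfFinAddOrder (c i) := by
      rw [isOfFinAddOrder_iff_nsmul_eq_zero]
      exact ⟨_, Nat.pos_of_ne_zero hL, hc i hi⟩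
    have h3f : IsOfFinAddOrder (((1 / 3 : ℝ)) : UnitAddCircle) := by
      rw [isOfFinAddOrder_iff_nsmul_eq_zero]
      refine ⟨3, by norm_num, ?_⟩
      rw [← AddCircle.coe_nsmul]
      have : (3 : ℕ) • (1 / 3 : ℝ) = 1 := by norm_num
      rw [this]
      exact AddCircle.coe_period 1
    obtain ⟨w, hw⟩ := BlkS_div (u i) (hu i hi) ((((1 / 3 : ℝ)) : UnitAddCircle) - c i)
    have hwf : IsOfFinAddOrder w := by
      apply BlkS_fin (hu i hi)
      rw [hw, sub_eq_add_neg]
      exact h3f.add hcf.neg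
    have hval : u i • w + c i = (((1 / 3 : ℝ)) : UnitAddCircle) := by
      rw [hw, sub_add_cancel]
    have hsw : sw (((1 / 3 : ℝ)) : UnitAddCircle) = -1 / 6 := by
      rw [h2]
      have : Int.fract (1 / 3 : ℝ) = 1 / 3 := Int.fract_eq_self.2 ⟨by norm_num, by norm_num⟩
      rw [this]
      norm_num
    have hne : ∀ j ∈ ({i} : Finset ι), u j • w + c j ≠ 0 := by
      intro j hj
      rw [Finset.mem_singleton] at hj
      subst hj
      rw [hval]
      intro h0
      have h5 := h2 0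
      rw [h0] at hsw
      have h6 : ((0 : ℝ) : UnitAddCircle) = 0 := rfl
      rw [h6, hsw] at h5
      norm_num at h5
    have h5 := (hrel w hwf hne).1 1 (fun _ _ => Nat.coprime_one_left _)
    rw [Finset.sum_singleton, one_nsmul] at h5
    have h6 : sw (u i • w + c i) = 0 := h5
    rw [hval, hsw] at h6
    norm_num at h6
  · intro hcard
    have h5 := (hrel w0 hw0 (fun i hi => by rw [← hxw i hi]; exact hx i hi)).1 1
      (fun _ _ => Nat.coprime_one_left _)
    have h6 : ∑ i ∈ s, sw (x i) = 0 := by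
      rw [← h5]
      refine Finset.sum_congr rfl fun i hi => ?_
      rw [one_nsmul, hxw i hi]
    have h7 := h4 ι s x h6
    rw [h7, hcard]
    have : (((2 : ℕ) : ℝ) / 2) = 1 := by norm_num
    rw [this]
    exact AddCircle.coe_period 1

end Pool.Agent.FC
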