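import Pool.Agent.Lib.MP_640417_ag.FC.SpecB

set_option autoImplicit false

noncomputable section

namespace Pool.Agent.FC

open Finset

private theorem Chr_pow_iff {p : ℕ} [Fact p.Prime] {g : (ZMod p)ˣ}
    (hg : ∀ x : (ZMod p)ˣ, x ∈ Subgroup.zpowers g) {R : Type} [CommRing R]
    (χ : MulChar (ZMod p) R) (n : ℕ) : χ ^ n = 1 ↔ (χ (g : ZMod p)) ^ n = 1 := by
  constructor
  · intro h
    rw [← MulChar.pow_apply_coe, h, MulChar.one_apply_coe]
  · intro h
    apply MulChar.ext
    intro a
    obtain ⟨e, he⟩ := mem_powers_iff_mem_zpowers.2 (hg a)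
    have he' : g ^ e = a := he
    rw [MulChar.pow_apply_coe, MulChar.one_apply_coe, ← he', Units.val_pow_eq_pow_val, map_pow,
      ← pow_mul, mul_comm, pow_mul, h, one_pow]

theorem tChr : S_Chr := by
  intro p _ g hg R _ _
  refine ⟨fun χ m hm => ?_, fun r hr => ?_⟩
  · have h1 : orderOf χ = orderOf (χ (g : ZMod p)) :=
      orderOf_eq_orderOf_iff.2 fun n => Chr_pow_iff hg χ n
    rw [IsPrimitiveRoot.iff_orderOf, h1]
  · have hp : p.Prime := Fact.out
    have hne : p - 1 ≠ 0 := by
      have := hp.two_le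
      omega
    let r' : Rˣ := Units.ofPowEqOne r (p - 1) hr hne
    have hr' : r' ^ (p - 1) = 1 := by
      apply Units.ext
      rw [Units.val_pow_eq_pow_val, Units.val_one]
      exact hr
    have hog : orderOf g = p - 1 := by
      rw [orderOf_eq_card_of_forall_mem_zpowers hg, Nat.card_eq_fintype_card, ZMod.card_units]
    have hdvd : orderOf r' ∣ orderOf g := by
      rw [hog]
      exact orderOf_dvd_of_pow_eq_one hr'
    refine ⟨MulChar.ofUnitHom (monoidHomOfForallMemZpowers hg hdvd), ?_⟩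
    rw [MulChar.ofUnitHom_coe, monoidHomOfForallMemZpowers_apply_gen]
    rfl

end Pool.Agent.FC
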