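import Pool.Agent.Lib.MP_640417_ag.FC.SpecB

/-!
# FE part B: `Cnt`, the number of the tuples which are not sums of pairs
-/

set_option autoImplicit false

noncomputable section

namespace Pool.Agent.FC

open Finset

private theorem finTor (L : ℕ) (hL : 0 < L) : {y : UnitAddCircle | L • y = 0}.Finite := by
  have h := AddCircle.finite_torsion (p := (1 : ℝ)) hL
  exact h

/-- the data `(b, u, c)` -/
private abbrev Trip (N : ℕ) : Type :=
  (Fin N → Option (Fin N)) × (Fin N → ℤ) × (Fin N → UnitAddCircle)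

private def SS (N r D L : ℕ) : Set (Trip N) :=
  {p | (∀ i, |p.2.1 i| ≤ (D : ℤ)) ∧ (∀ i, L • p.2.2 i = 0) ∧
    (∀ i, p.1 i ≠ none → p.2.1 i ≠ 0) ∧ #{β : Fin N | ∃ i, p.1 i = some β} ≤ r - 1}

private theorem SS_finite (N r D L : ℕ) (hL : 0 < L) : (SS N r D L).Finite := by
  have h1 : ({f : Fin N → ℤ | ∀ i, f i ∈ Set.Icc (-(D : ℤ)) D}).Finite :=
    Set.Finite.pi' fun _ => Set.finite_Icc _ _
  have h2 : ({f : Fin N → UnitAddCircle | ∀ i, f i ∈ {y : UnitAddCircle | L • y = 0}}).Finite :=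
    Set.Finite.pi' fun _ => finTor L hL
  refine ((Set.finite_univ (α := Fin N → Option (Fin N))).prod (h1.prod h2)).subset ?_
  rintro ⟨b, u, c⟩ ⟨hu, hc, -, -⟩
  refine ⟨Set.mem_univ _, fun i => ?_, fun i => hc i⟩
  exact abs_le.mp (hu i)

/-- the tuples with data `p` -/
private def AA (N M m : ℕ) [NeZero m] (p : Trip N) : Set (Fin N → ZMod m) :=
  {a : Fin N → ZMod m | (∀ i, p.1 i = none → M • ZMod.toAddCircle (a i) = 0) ∧
      ∀ β : Fin N, ∃ w : UnitAddCircle, ∀ i, p.1 i = some β →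
        ZMod.toAddCircle (a i) = p.2.1 i • w + p.2.2 i}

private theorem toAC_ne {m : ℕ} [NeZero m] {y : ZMod m} (h : y ≠ 0) : ZMod.toAddCircle y ≠ 0 := by
  intro h0
  exact h (ZMod.toAddCircle_injective m (by rw [h0, map_zero]))

private theorem cover (h1 : S_BlkS) (h2 : S_PS) (N r D L M m : ℕ) [NeZero m] (hN : N = 2 * r)
    (hL : L = (Icc 1 D).lcm id) (a : Fin N → ZMod m) (ha : ∀ i, a i ≠ 0)
    (hdec : Dec M D (fun i => ZMod.toAddCircle (a i))) (hps : ¬ PairSum a) :
    ∃ p ∈ SS N r D L, a ∈ AA N M m p := by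
  obtain ⟨b, u, c, hnone, -, hblk⟩ := hdec
  have hmem : ∀ {i : Fin N} {β : Fin N}, b i = some β → i ∈ ({i | b i = some β} : Finset (Fin N)) :=
    fun h => by simp [h]
  refine ⟨(b, fun i => if b i = none then 0 else u i, fun i => if b i = none then 0 else c i),
    ⟨fun i => ?_, fun i => ?_, fun i hi => ?_, ?_⟩, ⟨hnone, fun β => ?_⟩⟩
  · change |if b i = none then (0 : ℤ) else u i| ≤ D
    cases hb : b i with
    | none => simp
    | some β =>
      rw [if_neg (by simp)]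
      exact abs_le_of_sum (hblk β).2.1 (hmem hb)
  · change L • (if b i = none then (0 : UnitAddCircle) else c i) = 0
    cases hb : b i with
    | none => simp
    | some β =>
      rw [if_neg (by simp), hL]
      exact (hblk β).2.2.1 i (hmem hb)
  · change b i ≠ none at hi
    change (if b i = none then (0 : ℤ) else u i) ≠ 0
    rw [if_neg hi]
    obtain ⟨β, hβ⟩ := Option.ne_none_iff_exists'.mp hi
    exact (hblk β).1 i (hmem hβ)
  · change #{β : Fin N | ∃ i, b i = some β} ≤ r - 1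
    have hx : ∀ β : Fin N, ∀ i ∈ ({i | b i = some β} : Finset (Fin N)),
        (fun i => ZMod.toAddCircle (a i)) i ≠ 0 := fun β i _ => toAC_ne (ha i)
    have hcase := h2 N m a b fun β => by
      have h := h1 (Fin N) D _ u c _ (hx β) (hblk β)
      refine ⟨h.1, fun h3 => ?_⟩
      have h4 := h.2 h3
      refine ZMod.toAddCircle_injective m ?_
      rw [map_sum, map_zero]
      exact h4
    rcases hcase with h | h
    · omega
    · exact absurd h hps
  · obtain ⟨w, -, hw⟩ := (hblk β).2.2.2.1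
    refine ⟨w, fun i hi => ?_⟩
    change b i = some β at hi
    have hn : ¬ b i = none := by rw [hi]; simp
    change ZMod.toAddCircle (a i) =
      (if b i = none then (0 : ℤ) else u i) • w + (if b i = none then (0 : UnitAddCircle) else c i)
    rw [if_neg hn, if_neg hn]
    exact hw i (hmem hi)

theorem tCnt (h1 : S_BlkS) (h2 : S_PS) (h3 : S_CntF) : S_Cnt := by
  classical
  intro r hr
  obtain ⟨L, hL⟩ : ∃ L, L = (Icc 1 (2 ^ (2 * r - 1))).lcm id := ⟨_, rfl⟩
  have hL0 : 0 < L := by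
    rw [hL, Nat.pos_iff_ne_zero, Ne, Finset.lcm_eq_zero_iff]
    simp
  obtain ⟨C₀, hC⟩ := h3 (2 * r) (MM (2 * r)) (2 ^ (2 * r - 1))
    (Nat.pos_of_ne_zero (MM_ne_zero _))
  have hfin := SS_finite (2 * r) r (2 ^ (2 * r - 1)) L hL0
  refine ⟨hfin.toFinset.card * C₀, fun m _ => ?_⟩
  have hsub : {a : Fin (2 * r) → ZMod m | (∀ i, a i ≠ 0) ∧
      Dec (MM (2 * r)) (2 ^ (2 * r - 1)) (fun i => ZMod.toAddCircle (a i)) ∧ ¬ PairSum a} ⊆
      ((hfin.toFinset.biUnion fun p => (Set.toFinite (AA (2 * r) (MM (2 * r)) m p)).toFinset :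
        Finset (Fin (2 * r) → ZMod m)) : Set (Fin (2 * r) → ZMod m)) := by
    rintro a ⟨ha, hd, hp⟩
    obtain ⟨p, hp1, hp2⟩ := cover h1 h2 (2 * r) r (2 ^ (2 * r - 1)) L (MM (2 * r)) m rfl hL a ha hd hp
    rw [Finset.mem_coe, Finset.mem_biUnion]
    exact ⟨p, hfin.mem_toFinset.mpr hp1, (Set.Finite.mem_toFinset _).mpr hp2⟩
  have hm : 1 ≤ m := Nat.one_le_iff_ne_zero.mpr (NeZero.ne m)
  calc _ ≤ _ := Set.ncard_le_ncard hsub (Finset.finite_toSet _)
    _ = (hfin.toFinset.biUnion fun p =>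
          (Set.toFinite (AA (2 * r) (MM (2 * r)) m p)).toFinset).card := Set.ncard_coe_finset _
    _ ≤ ∑ p ∈ hfin.toFinset, ((Set.toFinite (AA (2 * r) (MM (2 * r)) m p)).toFinset).card :=
        Finset.card_biUnion_le
    _ ≤ ∑ p ∈ hfin.toFinset, C₀ * m ^ (r - 1) := by
        refine Finset.sum_le_sum fun p hp => ?_
        obtain ⟨hu, -, hne, hB⟩ := hfin.mem_toFinset.mp hp
        have h4 := hC p.1 p.2.1 p.2.2 m fun i hi => ⟨hne i hi, by exact_mod_cast hu i⟩
        rw [← Set.ncard_eq_toFinset_card]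
        exact h4.trans (Nat.mul_le_mul_left _ (Nat.pow_le_pow_right hm hB))
    _ = hfin.toFinset.card * C₀ * m ^ (r - 1) := by
        rw [Finset.sum_const, smul_eq_mul, mul_assoc]

end Pool.Agent.FC
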