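import Pool.Agent.Lib.MP_640417_ag.FC.SpecB

/-!
# MP_640417_ag, project FC, part B: the number of tuples with given data (`S_CntF`)
-/

set_option autoImplicit false

noncomputable section

namespace Pool.Agent.FC

open Finset

/-- The equation `u w = z` has at most `|u|` solutions. -/
private theorem CntF_sol (u : ℤ) (hu : u ≠ 0) (z : UnitAddCircle) :
    ∃ W : Finset UnitAddCircle, W.card ≤ u.natAbs ∧ ∀ w, u • w = z → w ∈ W := by
  classical
  have hr : IsSMulRegular ℝ u := by
    refine .of_right_eq_zero_of_smul fun x hx => ?_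
    rcases smul_eq_zero.1 hx with h | h
    · exact absurd h hu
    · exact h
  have hfin : {x : UnitAddCircle | u • x = 0}.Finite :=
    AddCircle.finite_torsion_of_isSMulRegular_int 1 u hr
  have hcard : hfin.toFinset.card ≤ u.natAbs := by
    have h1 := AddCircle.card_torsion_le_of_isSMulRegular_int (1 : ℝ) u hu hr
    have h2 : ((hfin.toFinset.card : ℕ) : ℕ∞) ≤ (u.natAbs : ℕ∞) := by
      rw [← Set.encard_coe_eq_coe_finsetCard, Set.Finite.coe_toFinset]
      exact h1
    exact_mod_cast h2
  by_cases h : ∃ w0, u • w0 = z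
  · obtain ⟨w0, hw0⟩ := h
    refine ⟨hfin.toFinset.image (fun v => w0 + v), Finset.card_image_le.trans hcard, ?_⟩
    intro w hw
    refine Finset.mem_image.2 ⟨w - w0, ?_, by abel⟩
    rw [Set.Finite.mem_toFinset]
    change u • (w - w0) = 0
    rw [smul_sub, hw, hw0, sub_self]
  · refine ⟨∅, by simp, ?_⟩
    intro w hw
    exact absurd ⟨w, hw⟩ h

/-- The entries killed by `M`. -/
private theorem CntF_T (M m : ℕ) [NeZero m] (hM : 0 < M) :
    ∃ T : Finset (ZMod m), T.card ≤ M ∧ ∀ j : ZMod m, M • ZMod.toAddCircle j = 0 → j ∈ T := by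
  classical
  obtain ⟨W, hW, hW2⟩ := CntF_sol (M : ℤ) (by exact_mod_cast hM.ne') 0
  refine ⟨Finset.univ.filter fun j : ZMod m => M • ZMod.toAddCircle j = 0, ?_, ?_⟩
  · refine le_trans (Finset.card_le_card_of_injOn (fun j => ZMod.toAddCircle j) ?_ ?_) hW
    · intro j hj
      rw [Finset.mem_coe, Finset.mem_filter] at hj
      refine hW2 _ ?_
      rw [natCast_zsmul]
      exact hj.2
    · exact fun x _ y _ h => ZMod.toAddCircle_injective m h
  · intro j hj
    exact Finset.mem_filter.2 ⟨Finset.mem_univ _, hj⟩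

/-- The parameters of a block. -/
private theorem CntF_W (D m : ℕ) [NeZero m] (u : ℤ) (hu : u ≠ 0) (hD : |u| ≤ D)
    (c : UnitAddCircle) : ∃ W : Finset UnitAddCircle, W.card ≤ m * D ∧
      ∀ (w : UnitAddCircle) (j : ZMod m), ZMod.toAddCircle j = u • w + c → w ∈ W := by
  classical
  choose V hV hV2 using fun j : ZMod m => CntF_sol u hu (ZMod.toAddCircle j - c)
  refine ⟨Finset.univ.biUnion V, ?_, ?_⟩
  · have h1 : (Finset.univ.biUnion V).card ≤ (Finset.univ : Finset (ZMod m)).card * D := by
      refine Finset.card_biUnion_le_card_mul _ _ _ fun j _ => ?_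
      refine (hV j).trans ?_
      have h2 : ((u.natAbs : ℕ) : ℤ) ≤ (D : ℤ) := by
        rw [Int.natCast_natAbs]
        exact hD
      exact_mod_cast h2
    rw [Finset.card_univ, ZMod.card] at h1
    exact h1
  · intro w j h
    refine Finset.mem_biUnion.2 ⟨j, Finset.mem_univ _, hV2 j w ?_⟩
    rw [h, add_sub_cancel_right]

theorem tCntF : S_CntF := by
  intro N M D hM
  refine ⟨(M * (D + 1)) ^ N, ?_⟩
  intro b u c m _ hu
  classical
  obtain ⟨T0, hT0, hT0'⟩ := CntF_T M m hM
  have hWex : ∀ β : Fin N, ∃ W : Finset UnitAddCircle,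
      W.card ≤ (if ∃ i, b i = some β then m * D else 1) ∧
      ((¬ ∃ i, b i = some β) → (0 : UnitAddCircle) ∈ W) ∧
      ∀ (w : UnitAddCircle) (a : Fin N → ZMod m), (∃ i, b i = some β) →
        (∀ i, b i = some β → ZMod.toAddCircle (a i) = u i • w + c i) → w ∈ W := by
    intro β
    by_cases h : ∃ i, b i = some β
    · obtain ⟨i, hi⟩ := h
      obtain ⟨hu1, hu2⟩ := hu i (by rw [hi]; simp)
      obtain ⟨W, hW1, hW2⟩ := CntF_W D m (u i) hu1 hu2 (c i)
      refine ⟨W, ?_, fun h => absurd ⟨i, hi⟩ h, ?_⟩
      · rw [if_pos ⟨i, hi⟩]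
        exact hW1
      · intro w a _ ha
        exact hW2 w (a i) (ha i hi)
    · refine ⟨{0}, ?_, fun _ => Finset.mem_singleton_self _, fun _ _ h' => absurd h' h⟩
      rw [if_neg h]
      simp
  choose W hW1 hW2 hW3 using hWex
  let T : Fin N → Finset (ZMod m) := fun i => if b i = none then T0 else {0}
  have hT : ∀ i, (T i).card ≤ M := by
    intro i
    by_cases h : b i = none
    · have : T i = T0 := if_pos h
      rw [this]
      exact hT0
    · have : T i = {0} := if_neg h
      rw [this, Finset.card_singleton]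
      exact hM
  let Ψ : (Fin N → ZMod m) × (Fin N → UnitAddCircle) → Fin N → ZMod m := fun x i =>
    match b i with
    | none => x.1 i
    | some β => Function.invFun (ZMod.toAddCircle : ZMod m → UnitAddCircle) (u i • x.2 β + c i)
  have hΨ1 : ∀ x i, b i = none → Ψ x i = x.1 i := by
    intro x i h
    simp only [Ψ, h]
  have hΨ2 : ∀ x i β, b i = some β → Ψ x i =
      Function.invFun (ZMod.toAddCircle : ZMod m → UnitAddCircle) (u i • x.2 β + c i) := by
    intro x i β h
    simp only [Ψ, h]
  have hsub : {a : Fin N → ZMod m | (∀ i, b i = none → M • ZMod.toAddCircle (a i) = 0) ∧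
      ∀ β : Fin N, ∃ w : UnitAddCircle, ∀ i, b i = some β →
        ZMod.toAddCircle (a i) = u i • w + c i} ⊆
      (((Fintype.piFinset T) ×ˢ (Fintype.piFinset W)).image Ψ : Finset (Fin N → ZMod m)) := by
    rintro a ⟨ha1, ha2⟩
    choose w hw using ha2
    rw [Finset.mem_coe, Finset.mem_image]
    refine ⟨(fun i => if b i = none then a i else 0,
      fun β => if ∃ i, b i = some β then w β else 0), ?_, ?_⟩
    · rw [Finset.mem_product, Fintype.mem_piFinset, Fintype.mem_piFinset]
      constructor
      · intro i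
        by_cases h : b i = none
        · have h1 : T i = T0 := if_pos h
          rw [h1]
          simp only [h, if_true]
          exact hT0' _ (ha1 i h)
        · have h1 : T i = {0} := if_neg h
          rw [h1]
          simp only [h, if_false]
          exact Finset.mem_singleton_self _
      · intro β
        by_cases h : ∃ i, b i = some β
        · simp only [h, if_true]
          exact hW3 β (w β) a h (hw β)
        · simp only [h, if_false]
          exact hW2 β h
    · funext i
      rcases hb : b i with _ | β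
      · rw [hΨ1 _ i hb]
        simp only [hb, if_true]
      · rw [hΨ2 _ i β hb]
        have h1 : ∃ i, b i = some β := ⟨i, hb⟩
        simp only [h1, if_true]
        rw [← hw β i hb]
        exact Function.leftInverse_invFun (ZMod.toAddCircle_injective m) (a i)
  refine (Set.ncard_le_ncard hsub (Finset.finite_toSet _)).trans ?_
  rw [Set.ncard_coe_finset]
  refine Finset.card_image_le.trans ?_
  rw [Finset.card_product, Fintype.card_piFinset, Fintype.card_piFinset]
  have h1 : ∏ i, (T i).card ≤ M ^ N := by
    refine (Finset.prod_le_pow_card _ _ _ fun i _ => hT i).trans ?_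
    rw [Finset.card_univ, Fintype.card_fin]
  have h2 : ∏ β, (W β).card ≤ (m * D) ^ #{β : Fin N | ∃ i, b i = some β} := by
    refine (Finset.prod_le_prod' fun β _ => hW1 β).trans ?_
    rw [Finset.prod_ite, Finset.prod_const, Finset.prod_const_one, mul_one]
  have h3 : #{β : Fin N | ∃ i, b i = some β} ≤ N := by
    refine (Finset.card_le_univ _).trans ?_
    rw [Fintype.card_fin]
  calc (∏ i, (T i).card) * ∏ β, (W β).card
      ≤ M ^ N * (m * D) ^ #{β : Fin N | ∃ i, b i = some β} := Nat.mul_le_mul h1 h2
    _ = M ^ N * D ^ #{β : Fin N | ∃ i, b i = some β} *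
        m ^ #{β : Fin N | ∃ i, b i = some β} := by rw [mul_pow]; ring
    _ ≤ M ^ N * (D + 1) ^ N * m ^ #{β : Fin N | ∃ i, b i = some β} := by
        refine Nat.mul_le_mul_right _ (Nat.mul_le_mul_left _ ?_)
        exact (Nat.pow_le_pow_left (Nat.le_succ D) _).trans
          (Nat.pow_le_pow_right (Nat.succ_pos D) h3)
    _ = (M * (D + 1)) ^ N * m ^ #{β : Fin N | ∃ i, b i = some β} := by rw [mul_pow]

end Pool.Agent.FC
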