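import Pool.Agent.Lib.MP_640417_ag.FC.SpecB

/-! THEOREM FE, part B: components of a family block. -/

set_option autoImplicit false

noncomputable section

namespace Pool.Agent.FC

open Finset

private theorem Comp_div (K : ℤ) (hK : K ≠ 0) (x : UnitAddCircle) : ∃ θ : UnitAddCircle, K • θ = x := by
  obtain ⟨r, rfl⟩ := QuotientAddGroup.mk_surjective x
  refine ⟨((r / K : ℝ) : UnitAddCircle), ?_⟩
  have hK' : (K : ℝ) ≠ 0 := by exact_mod_cast hK
  rw [← AddCircle.coe_zsmul, zsmul_eq_mul, mul_div_cancel₀ r hK']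

private theorem Comp_tors (K : ℤ) (hK : K ≠ 0) (x θ : UnitAddCircle) (h : K • θ = x)
    (hx : IsOfFinAddOrder x) : IsOfFinAddOrder θ := by
  obtain ⟨n, hn, hnx⟩ := isOfFinAddOrder_iff_nsmul_eq_zero.1 hx
  refine isOfFinAddOrder_iff_zsmul_eq_zero.2 ⟨(n : ℤ) * K, mul_ne_zero (by exact_mod_cast hn.ne') hK, ?_⟩
  rw [mul_smul, h, natCast_zsmul, hnx]

private theorem Comp_kill {K : ℤ} {L : ℕ} (hL : K.natAbs ∣ L) {y : UnitAddCircle} (h : K • y = 0) :
    L • y = 0 := by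
  obtain ⟨q, rfl⟩ := hL
  have h1 : (K.natAbs : ℤ) • y = 0 := by
    rcases Int.natAbs_eq K with h2 | h2
    · rw [← h2, h]
    · have : (K.natAbs : ℤ) = -K := by omega
      rw [this, neg_smul, h, neg_zero]
  rw [natCast_zsmul] at h1
  rw [mul_nsmul, h1, nsmul_zero]

theorem tComp : S_Comp := by
  classical
  intro ι C K x L hF hC hL hx
  rw [fam_iff] at hF
  obtain ⟨hK, hsum⟩ := hF
  obtain ⟨i0, hi0⟩ := hC
  obtain ⟨θ0, hθ0⟩ := Comp_div (K i0) (hK i0 hi0) (x i0)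
  have key : ∀ i ∈ C, ∀ θ θ' : UnitAddCircle, K i • θ = x i → K i • θ' = x i → L • (θ - θ0) = 0 →
      L • (θ' - θ0) = 0 := by
    intro i hi θ θ' h1 h2 h3
    have h4 : K i • (θ' - θ) = 0 := by rw [smul_sub, h1, h2, sub_self]
    have h5 := Comp_kill (hL i hi) h4
    have h6 : θ' - θ0 = (θ' - θ) + (θ - θ0) := by abel
    rw [h6, nsmul_add, h5, h3, add_zero]
  refine ⟨C.filter (fun i => ∃ θ, L • (θ - θ0) = 0 ∧ K i • θ = x i), Finset.filter_subset _ _,
    ⟨i0, Finset.mem_filter.2 ⟨hi0, θ0, by rw [sub_self, nsmul_zero], hθ0⟩⟩, ?_,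
    ⟨θ0, Comp_tors (K i0) (hK i0 hi0) (x i0) θ0 hθ0 (hx i0 hi0), ?_⟩⟩
  · rw [fam_iff]
    refine ⟨fun i hi => hK i (Finset.mem_filter.1 hi).1, fun θ => ?_⟩
    by_cases h : L • (θ - θ0) = 0
    · rw [Finset.sum_filter]
      refine (Finset.sum_congr rfl fun i hi => ?_).trans (hsum θ)
      by_cases h1 : K i • θ = x i
      · rw [if_pos ⟨θ, h, h1⟩]
      · rw [if_neg h1, ite_self]
    · refine Finset.sum_eq_zero fun i hi => ?_
      obtain ⟨hiC, θ', h1, h2⟩ := Finset.mem_filter.1 hi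
      rw [if_neg]
      intro h3
      exact h (key i hiC θ' θ h2 h3 h1)
  · intro i hi
    obtain ⟨hiC, θ', h1, h2⟩ := Finset.mem_filter.1 hi
    rw [← h2, ← smul_sub, ← natCast_zsmul, smul_comm, natCast_zsmul, h1, smul_zero]

end Pool.Agent.FC
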