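import Pool.Agent.Lib.MP_640417_ag.FC.SpecB

noncomputable section

namespace Pool.Agent.FC

open Finset

theorem tCop : S_Cop := by
  intro L M t hL hM ht
  haveI : NeZero (L * M) := ⟨(Nat.mul_pos hL hM).ne'⟩
  obtain ⟨v, hv⟩ := ZMod.unitsMap_surjective (Dvd.intro M rfl : L ∣ L * M) (ZMod.unitOfCoprime t ht)
  refine ⟨(v : ZMod (L * M)).val, ?_, ZMod.val_coe_unit_coprime v⟩
  rw [← ZMod.natCast_eq_natCast_iff]
  have h := congrArg (fun u : (ZMod L)ˣ => (u : ZMod L)) hv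
  simp only [ZMod.unitsMap_val, ZMod.coe_unitOfCoprime] at h
  rw [← h, ZMod.natCast_val]

end Pool.Agent.FC
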