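import Pool.Agent.Lib.MP_640417_ag.FC.SpecB

/-!
# MP_640417_ag, FC, module Cou: counting
-/

set_option autoImplicit false

noncomputable section

namespace Pool.Agent.FC

open Finset

private theorem cou_inj {n A : ℕ} (h : A.Coprime n) {i j : ℕ} (hi : i < n) (hj : j < n)
    (hij : A * i % n = A * j % n) : i = j := by
  have h1 : i ≡ j [MOD n] := Nat.ModEq.cancel_left_of_coprime
    (by rw [Nat.gcd_comm]; exact h) hij
  exact Nat.ModEq.eq_of_lt_of_lt h1 hi hj

private theorem cou_pos {n A i : ℕ} (h : A.Coprime n) (h0 : 0 < i) (hi : i < n) :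
    0 < A * i % n := by
  rcases Nat.eq_zero_or_pos (A * i % n) with h1 | h1
  · have h2 : i = 0 := cou_inj h hi (by omega) (by rw [h1, mul_zero, Nat.zero_mod])
    omega
  · exact h1

private theorem cou_last {n A : ℕ} (h0 : 0 < A) (h1 : A < n) : A * (n - 1) % n = n - A := by
  obtain ⟨k, rfl⟩ : ∃ k, A = k + 1 := ⟨A - 1, by omega⟩
  have h2 : (k + 1) * (n - 1) = (n - (k + 1)) + n * k := by
    obtain ⟨q, rfl⟩ : ∃ q, n = q + (k + 1) := ⟨n - (k + 1), by omega⟩
    have h3 : q + (k + 1) - 1 = q + k := by omega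
    have h4 : q + (k + 1) - (k + 1) = q := by omega
    rw [h3, h4]
    ring
  rw [h2, Nat.add_mul_mod_self_left]
  exact Nat.mod_eq_of_lt (by omega)

theorem tCou : S_Cou := by
  intro n A h h0 h1
  have h2 : (Ico 1 (n - 1)).filter (fun i => A + A * i % n < n) =
      (Ico 1 n).filter (fun i => A + A * i % n < n) := by
    ext i
    rw [mem_filter, mem_filter, mem_Ico, mem_Ico]
    constructor
    · rintro ⟨⟨h3, h4⟩, h5⟩
      exact ⟨⟨h3, by omega⟩, h5⟩
    · rintro ⟨⟨h3, h4⟩, h5⟩
      refine ⟨⟨h3, ?_⟩, h5⟩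
      by_contra h6
      have h7 : i = n - 1 := by omega
      rw [h7, cou_last h0 h1] at h5
      omega
  have hinj : Set.InjOn (fun i => A * i % n) (Ico 1 n : Finset ℕ) := by
    intro i hi j hj hij
    rw [mem_coe, mem_Ico] at hi hj
    exact cou_inj h hi.2 hj.2 hij
  have himg : (Ico 1 n).image (fun i => A * i % n) = Ico 1 n := by
    refine eq_of_subset_of_card_le ?_ ?_
    · intro j hj
      obtain ⟨i, hi, rfl⟩ := mem_image.1 hj
      rw [mem_Ico] at hi ⊢
      exact ⟨cou_pos h (by omega) hi.2, Nat.mod_lt _ (by omega)⟩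
    · rw [card_image_of_injOn hinj]
  have h3 : ((Ico 1 n).filter (fun i => A + A * i % n < n)).card =
      ((Ico 1 n).filter (fun j => A + j < n)).card := by
    have h4 : ((Ico 1 n).filter (fun i => A + A * i % n < n)).image (fun i => A * i % n) =
        (Ico 1 n).filter (fun j => A + j < n) := by
      conv_rhs => rw [← himg]
      rw [filter_image]
    rw [← h4, card_image_of_injOn]
    exact hinj.mono (by
      intro i hi
      exact (mem_filter.1 hi).1)
  have h5 : (Ico 1 n).filter (fun j => A + j < n) = Ico 1 (n - A) := by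
    ext j
    rw [mem_filter, mem_Ico, mem_Ico]
    omega
  rw [h2, h3, h5, Nat.card_Ico]
  omega

end Pool.Agent.FC
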