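import Pool.Agent.Lib.MP_640417_ag.FC.SpecB

/-!
# MP_640417_ag, project FC, module `B/Dec`: the structure theorem
-/

set_option autoImplicit false

noncomputable section

namespace Pool.Agent.FC

open Finset

private theorem Dec_relOn_congr {ι : Type} {s : Finset ι} {x y : ι → UnitAddCircle}
    (h : ∀ i ∈ s, x i = y i) (hx : RelOn s x) : RelOn s y := by
  intro t ht
  have h1 : ∑ i ∈ s, sw (t • y i) = ∑ i ∈ s, sw (t • x i) :=
    Finset.sum_congr rfl fun i hi => by rw [h i hi]
  rw [h1]
  exact hx t fun i hi => by rw [h i hi]; exact ht i hi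

private theorem Dec_blk_congr {D : ℕ} {ι : Type} {s : Finset ι} {u u' : ι → ℤ}
    {c c' x : ι → UnitAddCircle} (hu : ∀ i ∈ s, u i = u' i) (hc : ∀ i ∈ s, c i = c' i)
    (h : Blk D s u c x) : Blk D s u' c' x := by
  obtain ⟨h1, h2, h3, ⟨w, hw, h4⟩, h5⟩ := h
  have hs : ∀ v : UnitAddCircle, ∀ i ∈ s, u i • v + c i = u' i • v + c' i := fun v i hi => by
    rw [hu i hi, hc i hi]
  refine ⟨fun i hi => by rw [← hu i hi]; exact h1 i hi, ?_, fun i hi => by
    rw [← hc i hi]; exact h3 i hi, ⟨w, hw, fun i hi => by rw [← hs w i hi]; exact h4 i hi⟩, ?_⟩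
  · have h6 : ∑ i ∈ s, |u' i| = ∑ i ∈ s, |u i| :=
      Finset.sum_congr rfl fun i hi => by rw [hu i hi]
    rw [h6]
    exact h2
  · intro v hv hne
    have h6 := h5 v hv fun i hi => by rw [hs v i hi]; exact hne i hi
    refine ⟨Dec_relOn_congr (hs v) h6.1, ?_⟩
    have h7 : ∑ i ∈ s, Finsupp.single (u i • v + c i) (1 : ℤ) =
        ∑ i ∈ s, Finsupp.single (u' i • v + c' i) (1 : ℤ) :=
      Finset.sum_congr rfl fun i hi => by rw [hs v i hi]
    rw [← h7]
    exact h6.2

private theorem Dec_blk_empty {D : ℕ} {ι : Type} (u : ι → ℤ) (c x : ι → UnitAddCircle) :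
    Blk D ∅ u c x := by
  refine ⟨by simp, by simp, by simp, ⟨0, IsOfFinAddOrder.zero, by simp⟩, ?_⟩
  intro v _ _
  refine ⟨fun t _ => by simp, ?_⟩
  rw [Finset.sum_empty]
  exact HD.zero_mem

private theorem Dec_blk_rel {D : ℕ} {ι : Type} {s : Finset ι} {u : ι → ℤ}
    {c x : ι → UnitAddCircle} (hx : ∀ i ∈ s, x i ≠ 0) (h : Blk D s u c x) : RelOn s x := by
  obtain ⟨_, _, _, ⟨w, hw, h4⟩, h5⟩ := h
  exact Dec_relOn_congr (fun i hi => (h4 i hi).symm)
    (h5 w hw fun i hi => by rw [← h4 i hi]; exact hx i hi).1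

private theorem Dec_sdiff (h2 : S_Cop) {ι : Type} [DecidableEq ι] {s C : Finset ι}
    {x : ι → UnitAddCircle} (hx : ∀ i, IsOfFinAddOrder (x i)) (hC : C ⊆ s) (hs : RelOn s x)
    (hr : RelOn C x) : RelOn (s \ C) x := by
  intro t ht
  have hpos : ∀ T : Finset ι, 0 < ∏ i ∈ T, addOrderOf (x i) := fun T =>
    Finset.prod_pos fun i _ => (hx i).addOrderOf_pos
  obtain ⟨t', h3, h4⟩ := h2 (∏ i ∈ s \ C, addOrderOf (x i)) (∏ i ∈ C, addOrderOf (x i)) t
    (hpos _) (hpos _) (Nat.Coprime.prod_right fun i hi => ht i hi)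
  have h5 : ∀ i ∈ s \ C, t' • x i = t • x i := fun i hi => by
    rw [nsmul_eq_nsmul_iff_modEq]
    exact h3.of_dvd (Finset.dvd_prod_of_mem (fun i => addOrderOf (x i)) hi)
  have h6 : ∀ i ∈ C, t'.Coprime (addOrderOf (x i)) := fun i hi =>
    (Nat.Coprime.coprime_mul_left_right h4).coprime_dvd_right
      (Finset.dvd_prod_of_mem (fun i => addOrderOf (x i)) hi)
  have h7 : ∀ i ∈ s, t'.Coprime (addOrderOf (x i)) := fun i hi => by
    by_cases hi' : i ∈ C
    · exact h6 i hi'
    · exact (Nat.Coprime.coprime_mul_right_right h4).coprime_dvd_right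
        (Finset.dvd_prod_of_mem (fun i => addOrderOf (x i)) (Finset.mem_sdiff.2 ⟨hi, hi'⟩))
  have h8 : ∑ i ∈ s \ C, sw (t • x i) = ∑ i ∈ s \ C, sw (t' • x i) :=
    Finset.sum_congr rfl fun i hi => by rw [h5 i hi]
  have h9 := Finset.sum_sdiff (f := fun i => sw (t' • x i)) hC
  rw [hs t' h7, hr t' h6, add_zero] at h9
  rw [h8, h9]

private theorem Dec_step (h1 : S_Core) (h3 : S_BlkE) {N : ℕ} {x : Fin N → UnitAddCircle}
    (hx : ∀ i, IsOfFinAddOrder (x i)) (hx0 : ∀ i, x i ≠ 0) {s : Finset (Fin N)}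
    (hs : RelOn s x) (hM : ∃ i ∈ s, MM N • x i ≠ 0) :
    ∃ (C : Finset (Fin N)) (K : Fin N → ℤ) (c : Fin N → UnitAddCircle), C ⊆ s ∧ C.Nonempty ∧
      Blk (2 ^ (N - 1)) C K c x := by
  classical
  obtain ⟨i0, hi0, hM0⟩ := hM
  have hrel : Rel (fun i : {i // i ∈ s} => x i) := by
    intro t ht
    have h4 := hs t fun i hi => ht ⟨i, hi⟩
    rw [← Finset.sum_coe_sort] at h4
    exact h4
  have hcard : Fintype.card {i // i ∈ s} ≤ N := by
    rw [Fintype.card_coe]
    calc s.card ≤ (univ : Finset (Fin N)).card := Finset.card_le_card (Finset.subset_univ s)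
      _ = N := by simp
  obtain ⟨C, K, hCn, hF, hK⟩ := h1 N {i // i ∈ s} (fun i => x i) hcard (fun i => hx i)
    (fun i => hx0 i) hrel ⟨⟨i0, hi0⟩, hM0⟩
  let K' : Fin N → ℤ := fun i => if h : i ∈ s then K ⟨i, h⟩ else 0
  have hK' : ∀ j : {i // i ∈ s}, K' j = K j := fun j => by
    simp only [K']
    rw [dif_pos j.2]
  let C1 : Finset (Fin N) := C.map (Function.Embedding.subtype _)
  have hC1 : C1 ⊆ s := by
    intro i hi
    obtain ⟨j, _, rfl⟩ := Finset.mem_map.1 hi
    exact j.2
  have hF1 : Fam C1 K' x := by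
    rw [fam_iff] at hF ⊢
    refine ⟨fun i hi => ?_, fun θ => ?_⟩
    · obtain ⟨j, hj, rfl⟩ := Finset.mem_map.1 hi
      have := hF.1 j hj
      rw [← hK' j] at this
      exact this
    · rw [Finset.sum_map]
      refine Eq.trans (Finset.sum_congr rfl fun j _ => ?_) (hF.2 θ)
      simp only [Function.Embedding.subtype_apply, hK' j]
  have hsum : ∑ i ∈ C1, |K' i| ≤ ((2 ^ (N - 1) : ℕ) : ℤ) := by
    rw [Finset.sum_map]
    have : ∑ j ∈ C, |K' ((Function.Embedding.subtype _) j)| = ∑ j ∈ C, |K j| :=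
      Finset.sum_congr rfl fun j _ => by
        rw [Function.Embedding.subtype_apply, hK' j]
    rw [this]
    push_cast
    exact hK
  obtain ⟨C', hC', hC'n, c, hB⟩ := h3 (Fin N) C1 K' x (2 ^ (N - 1)) hF1
    (Finset.map_nonempty.2 hCn) hsum fun i _ => ⟨hx i, hx0 i⟩
  exact ⟨C', K', c, hC'.trans hC1, hC'n, hB⟩

private theorem Dec_ind (h1 : S_Core) (h2 : S_Cop) (h3 : S_BlkE) {N : ℕ}
    {x : Fin N → UnitAddCircle} (hx : ∀ i, IsOfFinAddOrder (x i)) (hx0 : ∀ i, x i ≠ 0) :
    ∀ (n : ℕ) (s : Finset (Fin N)), s.card ≤ n → RelOn s x →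
      ∃ (b : Fin N → Option (Fin N)) (u : Fin N → ℤ) (c : Fin N → UnitAddCircle),
        (∀ i, i ∉ s → b i = none) ∧ (∀ i ∈ s, b i = none → MM N • x i = 0) ∧
        RelOn {i ∈ s | b i = none} x ∧ (∀ i β, b i = some β → β ∈ s) ∧
        ∀ β : Fin N, Blk (2 ^ (N - 1)) {i | b i = some β} u c x := by
  intro n
  induction n with
  | zero =>
    intro s hs hr
    have hs0 : s = ∅ := Finset.card_eq_zero.1 (Nat.le_zero.1 hs)
    subst hs0
    refine ⟨fun _ => none, fun _ => 0, fun _ => 0, fun _ _ => rfl, by simp, ?_, by simp, ?_⟩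
    · rw [Finset.filter_empty]
      exact hr
    · intro β
      have : ({i | (none : Option (Fin N)) = some β} : Finset (Fin N)) = ∅ := by
        ext i
        simp
      rw [this]
      exact Dec_blk_empty _ _ _
  | succ n ih =>
    intro s hs hr
    by_cases hM : ∃ i ∈ s, MM N • x i ≠ 0
    · obtain ⟨C, K, c', hC, hCn, hB⟩ := Dec_step h1 h3 hx hx0 hr hM
      have hr' : RelOn (s \ C) x :=
        Dec_sdiff h2 hx hC hr (Dec_blk_rel (fun i _ => hx0 i) hB)
      have hcard : (s \ C).card ≤ n := by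
        have h5 : (s \ C).card < s.card := by
          rw [Finset.card_sdiff_of_subset hC]
          have := hCn.card_pos
          have := Finset.card_le_card hC
          omega
        omega
      obtain ⟨b', u', c'', g1, g2, g3, g4, g5⟩ := ih (s \ C) hcard hr'
      obtain ⟨i0, hi0⟩ := hCn
      obtain ⟨b, hbC, hbN⟩ : ∃ b : Fin N → Option (Fin N), (∀ i ∈ C, b i = some i0) ∧
          ∀ i, i ∉ C → b i = b' i :=
        ⟨fun i => if i ∈ C then some i0 else b' i, fun i hi => if_pos hi, fun i hi => if_neg hi⟩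
      obtain ⟨u, huC, huN⟩ : ∃ u : Fin N → ℤ, (∀ i ∈ C, u i = K i) ∧ ∀ i, i ∉ C → u i = u' i :=
        ⟨fun i => if i ∈ C then K i else u' i, fun i hi => if_pos hi, fun i hi => if_neg hi⟩
      obtain ⟨c, hcC, hcN⟩ : ∃ c : Fin N → UnitAddCircle, (∀ i ∈ C, c i = c' i) ∧
          ∀ i, i ∉ C → c i = c'' i :=
        ⟨fun i => if i ∈ C then c' i else c'' i, fun i hi => if_pos hi, fun i hi => if_neg hi⟩
      refine ⟨b, u, c, ?_, ?_, ?_, ?_, ?_⟩
      · intro i hi
        rw [hbN i fun h => hi (hC h)]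
        exact g1 i fun h => hi (Finset.mem_sdiff.1 h).1
      · intro i hi hb
        by_cases hiC : i ∈ C
        · rw [hbC i hiC] at hb
          exact absurd hb (by simp)
        · rw [hbN i hiC] at hb
          exact g2 i (Finset.mem_sdiff.2 ⟨hi, hiC⟩) hb
      · have : s.filter (fun i => b i = none) = (s \ C).filter (fun i => b' i = none) := by
          ext i
          simp only [Finset.mem_filter, Finset.mem_sdiff]
          by_cases hiC : i ∈ C
          · simp [hiC, hbC i hiC]
          · simp [hiC, hbN i hiC]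
        rw [this]
        exact g3
      · intro i β hb
        by_cases hiC : i ∈ C
        · rw [hbC i hiC, Option.some.injEq] at hb
          rw [← hb]
          exact hC hi0
        · rw [hbN i hiC] at hb
          exact (Finset.mem_sdiff.1 (g4 i β hb)).1
      · intro β
        by_cases hβ : β = i0
        · subst hβ
          have : univ.filter (fun i => b i = some β) = C := by
            ext i
            simp only [Finset.mem_filter, Finset.mem_univ, true_and]
            by_cases hiC : i ∈ C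
            · simp [hiC, hbC i hiC]
            · simp only [hiC, hbN i hiC, iff_false]
              intro hb
              exact (Finset.mem_sdiff.1 (g4 i β hb)).2 hi0
          rw [this]
          exact Dec_blk_congr (fun i hi => (huC i hi).symm) (fun i hi => (hcC i hi).symm) hB
        · have hnot : ∀ i, b' i = some β → i ∉ C := by
            intro i hb hiC
            have := g1 i fun h => (Finset.mem_sdiff.1 h).2 hiC
            rw [this] at hb
            exact absurd hb (by simp)
          have : univ.filter (fun i => b i = some β) = univ.filter (fun i => b' i = some β) := by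
            ext i
            simp only [Finset.mem_filter, Finset.mem_univ, true_and]
            by_cases hiC : i ∈ C
            · rw [hbC i hiC, Option.some.injEq]
              exact ⟨fun h => absurd h.symm hβ, fun h => absurd hiC (hnot i h)⟩
            · rw [hbN i hiC]
          rw [this]
          exact Dec_blk_congr (fun i hi => (huN i (hnot i (Finset.mem_filter.1 hi).2)).symm)
            (fun i hi => (hcN i (hnot i (Finset.mem_filter.1 hi).2)).symm) (g5 β)
    · push Not at hM
      refine ⟨fun _ => none, fun _ => 0, fun _ => 0, fun _ _ => rfl, fun i hi _ => hM i hi, ?_,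
        by simp, ?_⟩
      · have : ({i ∈ s | (none : Option (Fin N)) = none} : Finset (Fin N)) = s := by
          ext i
          simp
        rw [this]
        exact hr
      · intro β
        have : ({i | (none : Option (Fin N)) = some β} : Finset (Fin N)) = ∅ := by
          ext i
          simp
        rw [this]
        exact Dec_blk_empty _ _ _

theorem tDec (h1 : S_Core) (h2 : S_Cop) (h3 : S_BlkE) : S_Dec := by
  intro N x hx hx0 hr
  obtain ⟨b, u, c, g1, g2, g3, g4, g5⟩ := Dec_ind h1 h2 h3 hx hx0 _ univ le_rfl hr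
  exact ⟨b, u, c, fun i hi => g2 i (Finset.mem_univ i) hi, g3, g5⟩

end Pool.Agent.FC
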