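import Pool.Agent.Lib.MP_640417_ag.FC.SpecB

/-!
# FE, part B: the distribution relation with a multiplier (`S_Dis`)
-/

set_option autoImplicit false

noncomputable section

namespace Pool.Agent.FC

open Finset

private theorem Dis_nat (m : ℕ) : (((m : ℕ) : ℝ) : UnitAddCircle) = 0 := by
  rw [AddCircle.coe_eq_zero_iff]
  exact ⟨(m : ℤ), by simp⟩

private theorem Dis_smul (n t j : ℕ) (hn : 0 < n) :
    t • ((j / n : ℝ) : UnitAddCircle) = (((t * j % n : ℕ) / n : ℝ) : UnitAddCircle) := by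
  have h1 : t • ((j / n : ℝ) : UnitAddCircle) = ((t • (j / n : ℝ) : ℝ) : UnitAddCircle) := rfl
  have hn' : (n : ℝ) ≠ 0 := by exact_mod_cast hn.ne'
  have h2 : (t • (j / n : ℝ) : ℝ) = ((t * j % n : ℕ) / n : ℝ) + ((t * j / n : ℕ) : ℝ) := by
    have h3 : ((t * j % n : ℕ) : ℝ) + (n : ℝ) * ((t * j / n : ℕ) : ℝ) = (t : ℝ) * j := by
      exact_mod_cast Nat.mod_add_div (t * j) n
    rw [nsmul_eq_mul]
    field_simp
    linarith
  rw [h1, h2, AddCircle.coe_add, Dis_nat, add_zero]

theorem tDis (h1 : S_Sw) : S_Dis := by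
  intro n t y hn ht
  obtain ⟨-, -, -, -, h5⟩ := h1
  have hinj : Set.InjOn (fun j => t * j % n) (range n : Set ℕ) := by
    intro j hj j' hj' h
    have h2 : t * j ≡ t * j' [MOD n] := h
    have h3 := Nat.ModEq.cancel_left_of_coprime (Nat.Coprime.symm ht) h2
    exact Nat.ModEq.eq_of_lt_of_lt h3 (by simpa using hj) (by simpa using hj')
  have him : (range n).image (fun j => t * j % n) = range n := by
    apply Finset.eq_of_subset_of_card_le
    · intro x hx
      obtain ⟨j, -, rfl⟩ := Finset.mem_image.1 hx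
      exact Finset.mem_range.2 (Nat.mod_lt _ hn)
    · rw [Finset.card_image_of_injOn hinj]
  have h6 : ∑ j ∈ range n, sw (t • (y + ((j / n : ℝ) : UnitAddCircle))) =
      ∑ j ∈ range n, sw (t • y + (((t * j % n : ℕ) / n : ℝ) : UnitAddCircle)) := by
    apply Finset.sum_congr rfl
    intro j _
    rw [smul_add, Dis_smul n t j hn]
  have h7 : ∑ j ∈ range n, sw (t • y + (((t * j % n : ℕ) / n : ℝ) : UnitAddCircle)) =
      ∑ j ∈ (range n).image (fun j => t * j % n),
        sw (t • y + ((j / n : ℝ) : UnitAddCircle)) :=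
    (Finset.sum_image (f := fun j : ℕ => sw (t • y + ((j / n : ℝ) : UnitAddCircle))) hinj).symm
  rw [h6, h7, him, h5 n (t • y) hn, smul_comm]

end Pool.Agent.FC
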