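import Pool.Agent.Lib.MP_640417_ag.FC.SpecB

/-!
# MP_640417_ag, FC, part B, module Div: divisibility by powers of `p` at roots of unity
-/

set_option autoImplicit false

noncomputable section

namespace Pool.Agent.FC

open Finset

private theorem cyc_zero {R : Type} [CommRing R] [IsDomain R] {m : ℕ} (hm : 0 < m) {r : R}
    (hr : IsPrimitiveRoot r m) : Polynomial.aeval r (Polynomial.cyclotomic m ℤ) = 0 := by
  have h1 := hr.isRoot_cyclotomic hm
  rw [Polynomial.IsRoot.def] at h1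
  rw [Polynomial.aeval_def, Polynomial.eval₂_eq_eval_map, Polynomial.map_cyclotomic, h1]

private theorem exists_prim (p m : ℕ) [Fact p.Prime] (hm : 0 < m) (hd : m ∣ p - 1) :
    ∃ ρ : ZMod p, IsPrimitiveRoot ρ m := by
  obtain ⟨g, hg⟩ := IsCyclic.exists_generator (α := (ZMod p)ˣ)
  have h1 : orderOf g = p - 1 := by
    rw [orderOf_eq_card_of_forall_mem_zpowers hg, Nat.card_eq_fintype_card, ZMod.card_units]
  have h2 : IsPrimitiveRoot g (p - 1) := by
    rw [← h1]
    exact IsPrimitiveRoot.orderOf g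
  obtain ⟨k, hk⟩ := hd
  have hp : 0 < p - 1 := by
    have := (Fact.out : p.Prime).two_le
    omega
  have h3 : IsPrimitiveRoot (g ^ k) m := h2.pow hp (by rw [hk, mul_comm])
  exact ⟨(g ^ k : (ZMod p)ˣ), IsPrimitiveRoot.coe_units_iff.2 h3⟩

private theorem cyc_dvd (p m : ℕ) [Fact p.Prime] (hm : 0 < m) (hd : m ∣ p - 1)
    (P : Polynomial (ZMod p)) (h : ∀ ρ : ZMod p, IsPrimitiveRoot ρ m → P.eval ρ = 0) :
    Polynomial.cyclotomic m (ZMod p) ∣ P := by
  obtain ⟨ρ, hρ⟩ := exists_prim p m hm hd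
  rw [Polynomial.cyclotomic_eq_prod_X_sub_primitiveRoots hρ]
  refine Finset.prod_dvd_of_coprime ?_ fun μ hμ => ?_
  · intro a _ b _ hab
    exact Polynomial.pairwise_coprime_X_sub_C (fun _ _ h => h) hab
  · rw [Polynomial.dvd_iff_isRoot]
    exact h μ ((mem_primitiveRoots hm).1 hμ)

private theorem split (p m : ℕ) [Fact p.Prime] (hm : 0 < m) (hd : m ∣ p - 1) (P : Polynomial ℤ)
    (h : ∀ ρ : ZMod p, IsPrimitiveRoot ρ m →
      (P.map (Int.castRingHom (ZMod p))).eval ρ = 0) :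
    ∃ Q P₁ : Polynomial ℤ, P = Polynomial.cyclotomic m ℤ * Q + Polynomial.C (p : ℤ) * P₁ := by
  obtain ⟨Q', hQ'⟩ := cyc_dvd p m hm hd _ h
  obtain ⟨Q, rfl⟩ := Polynomial.map_surjective (Int.castRingHom (ZMod p))
    ZMod.intCast_surjective Q'
  have h1 : (P - Polynomial.cyclotomic m ℤ * Q).map (Int.castRingHom (ZMod p)) = 0 := by
    rw [Polynomial.map_sub, Polynomial.map_mul, Polynomial.map_cyclotomic, hQ', sub_self]
  have h2 : Polynomial.C (p : ℤ) ∣ P - Polynomial.cyclotomic m ℤ * Q := by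
    rw [Polynomial.C_dvd_iff_dvd_coeff]
    intro i
    have h3 := congrArg (fun R : Polynomial (ZMod p) => R.coeff i) h1
    simp only [Polynomial.coeff_map, Polynomial.coeff_zero] at h3
    exact (ZMod.intCast_zmod_eq_zero_iff_dvd _ p).1 h3
  obtain ⟨P₁, hP₁⟩ := h2
  exact ⟨Q, P₁, by rw [← hP₁]; ring⟩

theorem tDiv (h1 : S_Tei) : S_Div := by
  intro p m n _ hm hd
  obtain ⟨ω, hω⟩ := h1 p
  have hprim : ∀ ρ : ZMod p, IsPrimitiveRoot ρ m → IsPrimitiveRoot (ω ρ) m := by
    intro ρ hρ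
    refine ⟨by rw [← map_pow, hρ.pow_eq_one, map_one], fun l hl => ?_⟩
    refine hρ.dvd_of_pow_eq_one l ?_
    have h2 := congrArg PadicInt.toZMod hl
    rwa [map_pow, hω, map_one] at h2
  have hmod : ∀ (P : Polynomial ℤ) (ρ : ZMod p), PadicInt.toZMod (Polynomial.aeval (ω ρ) P) =
      (P.map (Int.castRingHom (ZMod p))).eval ρ := by
    intro P ρ
    rw [Polynomial.aeval_def, Polynomial.hom_eval₂, hω, Polynomial.eval₂_eq_eval_map]
    congr 2
    exact RingHom.ext_int _ _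
  have hp0 : (p : ℤ_[p]) ≠ 0 := by
    exact_mod_cast (Fact.out : p.Prime).ne_zero
  have hpz : PadicInt.toZMod (p : ℤ_[p]) = 0 := by
    rw [map_natCast, ZMod.natCast_self]
  induction n with
  | zero => exact fun P _ => ⟨P, fun ζ _ => by rw [pow_zero, one_mul]⟩
  | succ n ih =>
    intro P hP
    obtain ⟨Q, P₁, hQ⟩ := split p m hm hd P (by
      intro ρ hρ
      rw [← hmod]
      obtain ⟨c, hc⟩ := hP _ (hprim ρ hρ)
      rw [hc, pow_succ, map_mul, map_mul, hpz, mul_zero, zero_mul])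
    have hval : ∀ {R : Type} [CommRing R] [IsDomain R] (r : R), IsPrimitiveRoot r m →
        Polynomial.aeval r P = (p : R) * Polynomial.aeval r P₁ := by
      intro R _ _ r hr
      rw [hQ, map_add, map_mul, map_mul, cyc_zero hm hr, zero_mul, zero_add, Polynomial.aeval_C]
      simp
    obtain ⟨P', hP'⟩ := ih P₁ (by
      intro r hr
      have h3 := hP r hr
      rw [hval r hr, pow_succ'] at h3
      exact (mul_dvd_mul_iff_left hp0).1 h3)
    exact ⟨P', fun ζ hζ => by rw [hval ζ hζ, hP' ζ hζ, pow_succ', mul_assoc]⟩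

end Pool.Agent.FC
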