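import Pool.Agent.Lib.MP_640417_ag.FC.SpecB

/-!
# MP_640417_ag, project FC, part B: the `p`-adic value of `GP`
-/

set_option autoImplicit false

noncomputable section

namespace Pool.Agent.FC

open Finset

/-- a product of factors which are units or `p` times units -/
private theorem prod_units {p : ℕ} [Fact p.Prime] (S : Finset ℕ) (J : ℕ → ℤ_[p]) (P : ℕ → Prop)
    [DecidablePred P] (h1 : ∀ i ∈ S, P i → ∃ u : ℤ_[p]ˣ, J i = p * u)
    (h2 : ∀ i ∈ S, ¬ P i → IsUnit (J i)) :
    ∃ u : ℤ_[p]ˣ, ∏ i ∈ S, J i = (p : ℤ_[p]) ^ #{i ∈ S | P i} * u := by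
  induction S using Finset.induction_on with
  | empty => exact ⟨1, by simp⟩
  | insert i S hi ih =>
    obtain ⟨u, hu⟩ := ih (fun j hj => h1 j (mem_insert_of_mem hj))
      (fun j hj => h2 j (mem_insert_of_mem hj))
    rw [prod_insert hi, hu, filter_insert]
    by_cases hP : P i
    · obtain ⟨w, hw⟩ := h1 i (mem_insert_self i S) hP
      refine ⟨w * u, ?_⟩
      rw [if_pos hP, card_insert_of_notMem (fun h => hi (mem_filter.1 h).1), hw, pow_succ]
      push_cast
      ring
    · obtain ⟨w, hw⟩ := h2 i (mem_insert_self i S) hP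
      refine ⟨w * u, ?_⟩
      rw [if_neg hP, ← hw]
      push_cast
      ring

theorem tEV (h1 : S_JV) (h2 : S_Cou) : S_EV := by
  intro p m _ ω hω k t a hmk htm hma
  have hp : p.Prime := Fact.out
  have hp2 : 2 ≤ p := hp.two_le
  have hpos : 0 < m * k := by omega
  have hm : 0 < m := Nat.pos_of_mul_pos_right hpos
  have hk : 0 < k := Nat.pos_of_mul_pos_left hpos
  set d := m.gcd a with hd
  have hd0 : 0 < d := Nat.gcd_pos_of_pos_left a hm
  obtain ⟨m', hm'⟩ : d ∣ m := Nat.gcd_dvd_left m a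
  obtain ⟨a', ha'⟩ : d ∣ a := Nat.gcd_dvd_right m a
  have hmd : m / d = m' := by
    rw [hm']
    exact Nat.mul_div_cancel_left m' hd0
  have had : a / d = a' := by
    rw [ha']
    exact Nat.mul_div_cancel_left a' hd0
  have hcop : m'.Coprime a' := by
    have := Nat.coprime_div_gcd_div_gcd (m := m) (n := a) (by rw [← hd]; exact hd0)
    rw [← hd, hmd, had] at this
    exact this
  have hm'0 : 0 < m' := by
    rcases Nat.eq_zero_or_pos m' with h | h
    · rw [h, mul_zero] at hm'
      omega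
    · exact h
  have htm' : t.Coprime m' := htm.coprime_dvd_right ⟨d, by rw [hm', mul_comm]⟩
  have hm'2 : 2 ≤ m' := by
    by_contra hcon
    have h1' : m' = 1 := by omega
    apply hma
    rw [h1', mul_one] at hm'
    rw [hm']
    exact ⟨a', ha'⟩
  set A := t * a' % m' with hA
  have hcopA : A.Coprime m' := by
    have h3 : (t * a').Coprime m' := Nat.Coprime.mul_left htm' hcop.symm
    rw [hA]
    rw [Nat.coprime_iff_gcd_eq_one] at h3 ⊢
    rw [← h3, Nat.gcd_comm (t * a'), Nat.gcd_rec m']
  have hAlt : A < m' := Nat.mod_lt _ hm'0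
  have hA0 : 0 < A := by
    rcases Nat.eq_zero_or_pos A with h | h
    · rw [h, Nat.coprime_zero_left] at hcopA
      omega
    · exact h
  -- the powers of `ω`
  have hωp : ω ^ (p - 1) = 1 := by
    apply MulChar.ext
    intro u
    rw [MulChar.pow_apply_coe, MulChar.one_apply_coe, ← map_pow, ← Units.val_pow_eq_pow_val,
      ZMod.units_pow_card_sub_one_eq_one, Units.val_one, map_one]
  have hkey : ∀ i : ℕ, (ω ^ (k * t)) ^ (a * i) = ω ^ (k * d * (A * i % m')) := by
    intro i
    rw [← pow_mul, pow_eq_pow_mod (k * t * (a * i)) hωp]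
    congr 1
    rw [← hmk]
    have e1 : k * t * (a * i) = (k * d) * (t * a' * i) := by
      rw [ha']
      ring
    have e2 : m * k = (k * d) * m' := by
      rw [hm']
      ring
    rw [e1, e2, Nat.mul_mod_mul_left]
    congr 1
    exact ((Nat.mod_modEq (t * a') m').mul_right i).symm
  have hkey1 : (ω ^ (k * t)) ^ a = ω ^ (k * d * A) := by
    have := hkey 1
    rwa [mul_one, mul_one, Nat.mod_eq_of_lt hAlt] at this
  have hpd : p - 1 = k * d * m' := by
    rw [← hmk, hm']
    ring
  have hkd : 0 < k * d := Nat.mul_pos hk hd0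
  obtain ⟨u, hu⟩ := prod_units (p := p) (Ico 1 (m' - 1))
    (fun i => jacobiSum ((ω ^ (k * t)) ^ a) ((ω ^ (k * t)) ^ (a * i)))
    (fun i => A + A * i % m' < m') (by
      intro i hi hP
      rw [mem_Ico] at hi
      show ∃ u : ℤ_[p]ˣ, jacobiSum ((ω ^ (k * t)) ^ a) ((ω ^ (k * t)) ^ (a * i)) = p * u
      rw [hkey1, hkey i]
      have hB0 : 0 < A * i % m' := by
        rcases Nat.eq_zero_or_pos (A * i % m') with h | h
        · exfalso
          have h3 : m' ∣ A * i := Nat.dvd_of_mod_eq_zero h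
          have h4 : m' ∣ i := (hcopA.symm).dvd_of_dvd_mul_left h3
          have := Nat.le_of_dvd (by omega) h4
          omega
        · exact h
      have hBlt : A * i % m' < m' := Nat.mod_lt _ hm'0
      refine (h1 p ω hω (k * d * A) (k * d * (A * i % m')) (Nat.mul_pos hkd hA0) ?_
        (Nat.mul_pos hkd hB0) ?_).1 ?_
      · rw [hpd]
        exact Nat.mul_lt_mul_of_pos_left hAlt hkd
      · rw [hpd]
        exact Nat.mul_lt_mul_of_pos_left hBlt hkd
      · rw [hpd, ← mul_add]
        exact Nat.mul_lt_mul_of_pos_left hP hkd) (by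
      intro i hi hP
      rw [mem_Ico] at hi
      show IsUnit (jacobiSum ((ω ^ (k * t)) ^ a) ((ω ^ (k * t)) ^ (a * i)))
      rw [hkey1, hkey i]
      have hB0 : 0 < A * i % m' := by
        rcases Nat.eq_zero_or_pos (A * i % m') with h | h
        · exfalso
          have h3 : m' ∣ A * i := Nat.dvd_of_mod_eq_zero h
          have h4 : m' ∣ i := (hcopA.symm).dvd_of_dvd_mul_left h3
          have := Nat.le_of_dvd (by omega) h4
          omega
        · exact h
      have hBlt : A * i % m' < m' := Nat.mod_lt _ hm'0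
      refine (h1 p ω hω (k * d * A) (k * d * (A * i % m')) (Nat.mul_pos hkd hA0) ?_
        (Nat.mul_pos hkd hB0) ?_).2 ?_
      · rw [hpd]
        exact Nat.mul_lt_mul_of_pos_left hAlt hkd
      · rw [hpd]
        exact Nat.mul_lt_mul_of_pos_left hBlt hkd
      · rw [hpd, ← mul_add]
        exact Nat.mul_le_mul_left _ (not_lt.1 hP))
  have hneg : IsUnit (((ω ^ (k * t)) ^ a) (-1)) := (isUnit_one.neg).map ((ω ^ (k * t)) ^ a)
  obtain ⟨w, hw⟩ := hneg
  have hcou := h2 m' A hcopA hA0 hAlt
  have hGP : GP m (ω ^ (k * t)) a = (p : ℤ_[p]) ^ (m' - A) * ((w * u : ℤ_[p]ˣ) : ℤ_[p]) := by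
    unfold GP
    rw [← hd, hmd, hu, ← hw, ← hcou, pow_succ]
    push_cast
    ring
  refine ⟨(w * u) ^ d, ?_⟩
  rw [hGP, mul_pow, ← pow_mul]
  have hexp : (m' - A) * d = m - t * a % m := by
    have e1 : t * a % m = d * A := by
      rw [ha', hm']
      have : t * (d * a') = d * (t * a') := by ring
      rw [this, Nat.mul_mod_mul_left]
    rw [e1, Nat.sub_mul, hm', mul_comm m' d, mul_comm A d]
  rw [hexp]
  push_cast
  rfl

end Pool.Agent.FC
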