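import Pool.Agent.Lib.MP_640417_ag.FC.SpecB

/-!
# FC, part B, module FamHD
-/

set_option autoImplicit false

noncomputable section

namespace Pool.Agent.FC

open Finset

open Classical in
/-- S_FamHD -/
theorem tFamHD (h1 : S_RootsB) : S_FamHD := by
  intro ι C K x hF w hne
  obtain ⟨hK, hθ⟩ := (fam_iff C K x).1 hF
  have h2 : ∀ i, ∃ s : Finset UnitAddCircle, i ∈ C → (∀ θ, θ ∈ s ↔ K i • θ = K i • w + x i) ∧
      Finsupp.single (K i • w + x i) (1 : ℤ) -
        (K i).sign • ∑ θ ∈ s, Finsupp.single θ (1 : ℤ) ∈ HD := by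
    intro i
    by_cases hi : i ∈ C
    · obtain ⟨s, hs⟩ := h1 (K i) (K i • w + x i) (hK i hi) (hne i hi)
      exact ⟨s, fun _ => hs⟩
    · exact ⟨∅, fun h => absurd h hi⟩
  choose s hs using h2
  have h3 : ∑ i ∈ C, Finsupp.single (K i • w + x i) (1 : ℤ) =
      ∑ i ∈ C, (Finsupp.single (K i • w + x i) (1 : ℤ) -
        (K i).sign • ∑ θ ∈ s i, Finsupp.single θ (1 : ℤ)) +
      ∑ i ∈ C, (K i).sign • ∑ θ ∈ s i, Finsupp.single θ (1 : ℤ) := by
    rw [← sum_add_distrib]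
    exact sum_congr rfl fun i _ => (sub_add_cancel _ _).symm
  have h4 : ∑ i ∈ C, (K i).sign • ∑ θ ∈ s i, Finsupp.single θ (1 : ℤ) = 0 := by
    refine Finsupp.ext fun y => ?_
    rw [Finsupp.finsetSum_apply, Finsupp.zero_apply, ← hθ (y - w)]
    refine sum_congr rfl fun i hi => ?_
    rw [Finsupp.smul_apply, Finsupp.finsetSum_apply]
    have e1 : ∑ θ ∈ s i, (Finsupp.single θ (1 : ℤ)) y = if y ∈ s i then 1 else 0 := by
      simp only [Finsupp.single_apply]
      rw [sum_ite_eq']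
    have e2 : K i • (y - w) = x i ↔ y ∈ s i := by
      rw [(hs i hi).1 y, smul_sub, sub_eq_iff_eq_add, add_comm]
    rw [e1]
    by_cases hy : y ∈ s i
    · rw [if_pos hy, if_pos (e2.2 hy), smul_eq_mul, mul_one]
    · rw [if_neg hy, if_neg (fun h => hy (e2.1 h)), smul_zero]
  rw [h3, h4, add_zero]
  exact sum_mem fun i hi => (hs i hi).2

end Pool.Agent.FC
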