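import Pool.Agent.Lib.MP_640417_ag.FC.SpecB

/-! # MP_640417_ag, FC/B: module Final (helper69) -/

set_option autoImplicit false

noncomputable section

namespace Pool.Agent.FC

open Finset

/-- part (3) -/
private theorem part3 (h1 : S_Dec) (h4 : S_IT) (m N : ℕ) [NeZero m] (a : Fin N → ZMod m)
    (ha : IsTate m a) : Dec (MM N) (2 ^ (N - 1)) (fun i => ZMod.toAddCircle (a i)) := by
  obtain ⟨ha0, -, hR⟩ := (h4 m N a).mp ha
  refine h1 N _ ?_ ?_ hR
  · intro i
    have hm : 0 < m := Nat.pos_of_ne_zero (NeZero.ne m)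
    refine isOfFinAddOrder_iff_nsmul_eq_zero.mpr ⟨m, hm, ?_⟩
    rw [← map_nsmul]
    simp
  · intro i h
    have h2 : ZMod.toAddCircle (a i) = ZMod.toAddCircle (0 : ZMod m) := by
      rw [h]
      simp
    exact ha0 i (ZMod.toAddCircle_injective m h2)

theorem tFinal (h1 : S_Dec) (h2 : S_TR) (h3 : S_RM) (h4 : S_IT) (h5 : S_PT) (h6 : S_Cnt)
    (h7 : S_TotB) (h8 : S_Red) : S_Final := by
  refine ⟨h4, ?_, ?_, ?_, ?_⟩
  · intro m N _ a ha0 has p _ hdiv χ hχ ψ hψ k hk h
    rw [h4 m N a]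
    exact ⟨ha0, has, (h3 m N a).mpr (h2 m N a ha0 p hdiv χ hχ ψ hψ k hk h)⟩
  · intro m N _ a ha
    exact part3 h1 h4 m N a ha
  · intro m N _ a ha
    exact h8 m N a ha (part3 h1 h4 m N a ha)
  · intro r hr
    obtain ⟨C1, hC1⟩ := h6 r hr
    obtain ⟨C2, hC2⟩ := h7 r hr
    refine ⟨C1 + C2, ?_⟩
    intro m _
    have hA : {a : Fin (2 * r) → ZMod m | IsTate m a ∧ ¬ PairSum a}.ncard ≤ C1 * m ^ (r - 1) := by
      refine le_trans (Set.ncard_le_ncard ?_ (Set.toFinite _)) (hC1 m)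
      rintro a ⟨ha, hnp⟩
      exact ⟨ha.1, part3 h1 h4 m (2 * r) a ha, hnp⟩
    have hsplit : {a : Fin (2 * r) → ZMod m | IsTate m a}.ncard =
        {a : Fin (2 * r) → ZMod m | IsTate m a ∧ ¬ PairSum a}.ncard +
          {a : Fin (2 * r) → ZMod m | (∀ i, a i ≠ 0) ∧ PairSum a}.ncard := by
      rw [← Set.ncard_union_eq ?_ (Set.toFinite _) (Set.toFinite _)]
      · congr 1
        ext a
        simp only [Set.mem_ofPred_eq, Set.mem_union]
        constructor
        · intro ha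
          by_cases hp : PairSum a
          · exact Or.inr ⟨ha.1, hp⟩
          · exact Or.inl ⟨ha, hp⟩
        · rintro (ha | ha)
          · exact ha.1
          · exact h5 m (2 * r) a ha.1 ha.2
      · rw [Set.disjoint_left]
        rintro a ⟨-, hnp⟩ ⟨-, hp⟩
        exact hnp hp
    refine ⟨?_, ?_⟩
    · refine hA.trans ?_
      exact Nat.mul_le_mul_right _ (Nat.le_add_right _ _)
    · have hB := hC2 m
      rw [hsplit]
      have hA' : (({a : Fin (2 * r) → ZMod m | IsTate m a ∧ ¬ PairSum a}.ncard : ℕ) : ℤ) ≤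
          C1 * m ^ (r - 1) := by exact_mod_cast hA
      rw [abs_le] at hB ⊢
      push_cast
      constructor
      · have hn : (0 : ℤ) ≤
            ({a : Fin (2 * r) → ZMod m | IsTate m a ∧ ¬ PairSum a}.ncard : ℤ) := by positivity
        have hn2 : (0 : ℤ) ≤ C1 * m ^ (r - 1) := by positivity
        linarith [hB.1]
      · linarith [hB.2]

end Pool.Agent.FC
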