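import Pool.Agent.Lib.MP_640417_ag.FC.SpecB

set_option autoImplicit false

namespace Pool.Agent.FC

noncomputable section

open Finset

private theorem back {n : ℕ} (σ : Equiv.Perm (Fin n)) (hσ : ∀ i, σ (σ i) = i ∧ σ i ≠ i)
    (i : Fin n) (h : ¬ i < σ i) : σ i < σ (σ i) := by
  rw [(hσ i).1]
  exact lt_of_le_of_ne (not_lt.1 h) (hσ i).2

private theorem cardR (r : ℕ) (σ : Equiv.Perm (Fin (2 * r))) (hσ : ∀ i, σ (σ i) = i ∧ σ i ≠ i) :
    Fintype.card {i : Fin (2 * r) // i < σ i} = r := by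
  have h1 : Fintype.card {i : Fin (2 * r) // i < σ i} =
      Fintype.card {i : Fin (2 * r) // ¬ i < σ i} := by
    refine Fintype.card_congr
      { toFun := fun i => ⟨σ i.1, ?_⟩
        invFun := fun i => ⟨σ i.1, back σ hσ i.1 i.2⟩
        left_inv := ?_
        right_inv := ?_ }
    · rw [(hσ i.1).1]
      exact not_lt.2 i.2.le
    · intro i
      exact Subtype.ext (hσ i.1).1
    · intro i
      exact Subtype.ext (hσ i.1).1
  have h2 := Fintype.card_subtype_compl (fun i : Fin (2 * r) => i < σ i)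
  rw [Fintype.card_fin] at h2
  have h3 := Fintype.card_subtype_le (fun i : Fin (2 * r) => i < σ i)
  rw [Fintype.card_fin] at h3
  omega

private def eqv (r m : ℕ) [NeZero m] (σ : Equiv.Perm (Fin (2 * r)))
    (hσ : ∀ i, σ (σ i) = i ∧ σ i ≠ i) :
    {a : Fin (2 * r) → ZMod m // (∀ i, a i ≠ 0) ∧ ∀ i, a (σ i) = -a i} ≃
      ({i : Fin (2 * r) // i < σ i} → {y : ZMod m // y ≠ 0}) where
  toFun a i := ⟨a.1 i.1, a.2.1 i.1⟩
  invFun y := ⟨fun i => if h : i < σ i then (y ⟨i, h⟩).1 else -(y ⟨σ i, back σ hσ i h⟩).1, by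
    constructor
    · intro i
      by_cases h : i < σ i
      · simp only [h, dif_pos]
        exact (y ⟨i, h⟩).2
      · simp only [h, dif_neg, not_false_eq_true]
        exact neg_ne_zero.2 (y ⟨σ i, back σ hσ i h⟩).2
    · intro i
      by_cases h : i < σ i
      · have h' : ¬ σ i < σ (σ i) := by
          rw [(hσ i).1]
          exact not_lt.2 h.le
        simp only [h, h', dif_pos, dif_neg, not_false_eq_true]
        have h2 : (⟨σ (σ i), back σ hσ (σ i) h'⟩ : {i : Fin (2 * r) // i < σ i}) = ⟨i, h⟩ :=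
          Subtype.ext (hσ i).1
        rw [h2]
      · have h' := back σ hσ i h
        simp only [h, h', dif_pos, dif_neg, not_false_eq_true, neg_neg]⟩
  left_inv a := by
    apply Subtype.ext
    funext i
    by_cases h : i < σ i
    · simp only [h, dif_pos]
    · simp only [h, dif_neg, not_false_eq_true]
      rw [a.2.2 i, neg_neg]
  right_inv y := by
    funext i
    apply Subtype.ext
    simp only [i.2, dif_pos]

theorem tFix : S_Fix := by
  intro r m _ σ hσ
  rw [← Nat.card_coe_set_eq]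
  have h1 : Nat.card ({a : Fin (2 * r) → ZMod m | (∀ i, a i ≠ 0) ∧ ∀ i, a (σ i) = -a i} :
      Set (Fin (2 * r) → ZMod m)) = Nat.card ({i : Fin (2 * r) // i < σ i} → {y : ZMod m // y ≠ 0}) :=
    Nat.card_congr (eqv r m σ hσ)
  rw [h1, Nat.card_eq_fintype_card, Fintype.card_fun, cardR r σ hσ]
  congr 1
  have h2 := Fintype.card_subtype_compl (fun y : ZMod m => y = 0)
  rw [ZMod.card, Fintype.card_subtype_eq] at h2
  exact h2

end

end Pool.Agent.FC
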