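import Pool.Agent.Lib.MP_640417_ag.FC.SpecB

noncomputable section

namespace Pool.Agent.FC

open Finset

/-- **Gp.** The `m'`-th power and the absolute value of a Gauss sum. -/
theorem tGp : S_Gp := by
  intro p m _ χ ψ hm hχ hψ a ha
  have hprim : ψ.IsPrimitive := AddChar.IsPrimitive.of_ne_one hψ
  have ha0 : a ≠ 0 := by
    rintro rfl
    exact ha (dvd_zero m)
  have hord : orderOf (χ ^ a) = m / m.gcd a := by
    rw [orderOf_pow' χ ha0, hχ]
  have h1 : χ ^ a ≠ 1 := by
    intro h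
    exact ha (hχ ▸ orderOf_dvd_of_pow_eq_one h)
  have hpos : 0 < m / m.gcd a :=
    Nat.div_pos (Nat.le_of_dvd hm (Nat.gcd_dvd_left m a)) (Nat.gcd_pos_of_pos_left a hm)
  have h2 : 2 ≤ orderOf (χ ^ a) := by
    have h3 : orderOf (χ ^ a) ≠ 1 := fun h => h1 (orderOf_eq_one_iff.1 h)
    omega
  refine ⟨?_, ?_⟩
  · have h := gaussSum_pow_eq_prod_jacobiSum h2 hprim
    rw [hord, ZMod.card] at h
    rw [h, GP]
    simp only [pow_mul]
  · have h := gaussSum_mul_gaussSum_eq_card h1 hprim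
    rw [← star_gaussSum_eq, ZMod.card] at h
    have h4 : (gaussSum (χ ^ a) ψ) * star (gaussSum (χ ^ a) ψ) =
        ((‖gaussSum (χ ^ a) ψ‖ ^ 2 : ℝ) : ℂ) := by
      have := Complex.mul_conj' (gaussSum (χ ^ a) ψ)
      rw [Complex.star_def, this]
      push_cast
      rfl
    rw [h4] at h
    exact_mod_cast h

end Pool.Agent.FC
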