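import Pool.Agent.Lib.MP_640417_ag.FC.SpecB

/-!
A tuple of elements of finite order whose formal sum is in `HD` is a relation.
-/

set_option autoImplicit false

noncomputable section

namespace Pool.Agent.FC

open Finset

/-- `Φ_t f = ∑_y f(y) sw (t • y)` -/
private def phi (t : ℕ) : (UnitAddCircle →₀ ℤ) →+ ℝ :=
  Finsupp.liftAddHom fun y => (zmultiplesHom ℝ) (sw (t • y))

private theorem phi_single (t : ℕ) (y : UnitAddCircle) :
    phi t (Finsupp.single y (1 : ℤ)) = sw (t • y) := by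
  unfold phi
  rw [Finsupp.liftAddHom_apply_single]
  simp

private theorem nsmul_ne_zero_of_coprime {y : UnitAddCircle} (hy : y ≠ 0) {t : ℕ}
    (ht : t.Coprime (2 * max (addOrderOf y) 1)) : t • y ≠ 0 := by
  intro h
  have hd : addOrderOf y ∣ t := addOrderOf_dvd_iff_nsmul_eq_zero.2 h
  rcases Nat.eq_zero_or_pos (addOrderOf y) with h0 | h0
  · rw [h0] at hd ht
    have ht0 : t = 0 := Nat.eq_zero_of_zero_dvd hd
    rw [ht0] at ht
    norm_num at ht
  · have h1 : max (addOrderOf y) 1 = addOrderOf y := Nat.max_eq_left h0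
    rw [h1] at ht
    have h2 : addOrderOf y ∣ 1 := by
      rw [← (show Nat.gcd t (2 * addOrderOf y) = 1 from ht)]
      exact Nat.dvd_gcd hd (Dvd.intro_left 2 rfl)
    have h3 : addOrderOf y = 1 := Nat.dvd_one.1 h2
    exact hy (AddMonoid.addOrderOf_eq_one_iff.1 h3)

private theorem claim (h2 : S_Sw) (h3 : S_Dis) {f : UnitAddCircle →₀ ℤ} (hf : f ∈ HD) :
    ∃ L : ℕ, 1 < L ∧ ∀ t : ℕ, t.Coprime L → phi t f = 0 := by
  unfold HD at hf
  induction hf using AddSubgroup.closure_induction with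
  | mem f hf =>
    rcases hf with ⟨y, hy, rfl⟩ | ⟨n, y, hn, _, rfl⟩
    · refine ⟨2 * max (addOrderOf y) 1, ?_, fun t ht => ?_⟩
      · have : 1 ≤ max (addOrderOf y) 1 := le_max_right _ _
        omega
      · rw [map_add, phi_single, phi_single, smul_neg,
          h2.2.2.1 _ (nsmul_ne_zero_of_coprime hy ht)]
        ring
    · refine ⟨2 * n, by omega, fun t ht => ?_⟩
      have hn' : 0 < n := Nat.pos_of_ne_zero hn
      have htn : t.Coprime n := Nat.Coprime.coprime_mul_left_right ht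
      rw [map_sub, map_sum, phi_single]
      simp_rw [phi_single]
      rw [h3 n t y hn' htn, sub_self]
  | zero => exact ⟨2, by norm_num, fun t _ => map_zero _⟩
  | add f g _ _ ihf ihg =>
    obtain ⟨L, hL, hf⟩ := ihf
    obtain ⟨M, hM, hg⟩ := ihg
    refine ⟨L * M, ?_, fun t ht => ?_⟩
    · calc 1 < L := hL
        _ ≤ L * M := Nat.le_mul_of_pos_right L (by omega)
    · rw [map_add, hf t (Nat.Coprime.coprime_mul_right_right ht),
        hg t (Nat.Coprime.coprime_mul_left_right ht), add_zero]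
  | neg f _ ihf =>
    obtain ⟨L, hL, hf⟩ := ihf
    exact ⟨L, hL, fun t ht => by rw [map_neg, hf t ht, neg_zero]⟩

theorem tHDRel (h1 : S_Cop) (h2 : S_Sw) (h3 : S_Dis) : S_HDRel := by
  intro ι s x hx hHD t ht
  obtain ⟨L, hL, hΦ⟩ := claim h2 h3 hHD
  have hP : 0 < ∏ i ∈ s, addOrderOf (x i) :=
    Finset.prod_pos fun i hi => addOrderOf_pos_iff.2 (hx i hi)
  have htP : t.Coprime (∏ i ∈ s, addOrderOf (x i)) := Nat.Coprime.prod_right fun i hi => ht i hi
  obtain ⟨t', ht', hc⟩ := h1 _ L t hP (by omega) htP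
  have h4 : ∀ i ∈ s, t' • x i = t • x i := by
    intro i hi
    rw [nsmul_eq_nsmul_iff_modEq]
    exact ht'.of_dvd (Finset.dvd_prod_of_mem (fun i => addOrderOf (x i)) hi)
  have h5 := hΦ t' (Nat.Coprime.coprime_mul_left_right hc)
  rw [map_sum] at h5
  simp_rw [phi_single] at h5
  rw [← h5]
  exact Finset.sum_congr rfl fun i hi => by rw [h4 i hi]

end Pool.Agent.FC
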