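import Pool.Agent.Lib.MP_640417_ag.FC.SpecB

/-! # MP_640417_ag, FC/B: module IT (helper69) -/

set_option autoImplicit false

noncomputable section

namespace Pool.Agent.FC

open Finset

theorem tIT (h1 : S_RM) (h2 : S_Chr) (h3 : S_TR) (h4 : S_RT) : S_IT := by
  intro m N _ a
  constructor
  · rintro ⟨ha0, has, hT⟩
    refine ⟨ha0, has, ?_⟩
    rw [h1 m N a]
    obtain ⟨p, hp, -, hpm⟩ := Nat.exists_prime_gt_modEq_one (k := m) 1 (NeZero.ne m)
    have : Fact p.Prime := ⟨hp⟩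
    have hdiv : m ∣ p - 1 := (Nat.modEq_iff_dvd' hp.one_lt.le).mp hpm.symm
    obtain ⟨g, hg⟩ := IsCyclic.exists_generator (α := (ZMod p)ˣ)
    have hm : 0 < m := Nat.pos_of_ne_zero (NeZero.ne m)
    have hz : IsPrimitiveRoot (Complex.exp (2 * Real.pi * Complex.I / m)) m :=
      Complex.isPrimitiveRoot_exp m (NeZero.ne m)
    obtain ⟨χ, hχ⟩ := (h2 p g hg ℂ).2 (Complex.exp (2 * Real.pi * Complex.I / m)) (by
      obtain ⟨c, hc⟩ := hdiv
      rw [hc, pow_mul, hz.pow_eq_one, one_pow])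
    have hord : orderOf χ = m := by
      rw [(h2 p g hg ℂ).1 χ m hm, hχ]
      exact hz
    have hψ : (ZMod.stdAddChar : AddChar (ZMod p) ℂ) ≠ 1 := by
      intro h
      have h01 : (ZMod.stdAddChar (1 : ZMod p) : ℂ) = ZMod.stdAddChar (0 : ZMod p) := by
        rw [h]
        simp
      exact one_ne_zero (ZMod.injective_stdAddChar h01)
    obtain ⟨k, hk, hh⟩ := hT p hdiv χ hord ZMod.stdAddChar hψ
    exact h3 m N a ha0 p hdiv χ hord ZMod.stdAddChar hψ k hk hh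
  · rintro ⟨ha0, has, hR⟩
    refine ⟨ha0, has, ?_⟩
    intro p _ hdiv χ hχ ψ hψ
    exact h4 m N a ha0 ((h1 m N a).mp hR) p hdiv χ hχ ψ hψ

end Pool.Agent.FC
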