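import Pool.Agent.Lib.MP_640417_ag.FC.SpecB

set_option autoImplicit false

noncomputable section

namespace Pool.Agent.FC

open Finset

private theorem Int_card {r : ℕ} (σ : Equiv.Perm (Fin (2 * r))) (h : ∀ i, σ (σ i) = i ∧ σ i ≠ i) :
    (univ.filter (fun i => i < σ i)).card = r := by
  have h1 : (univ.filter (fun i => σ i < i)).card = (univ.filter (fun i => i < σ i)).card := by
    refine Finset.card_bij (fun i _ => σ i) ?_ ?_ ?_
    · intro i hi
      rw [Finset.mem_filter] at hi ⊢
      exact ⟨Finset.mem_univ _, by rw [(h i).1]; exact hi.2⟩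
    · intro i _ j _ hij
      exact σ.injective hij
    · intro i hi
      rw [Finset.mem_filter] at hi
      refine ⟨σ i, ?_, (h i).1⟩
      rw [Finset.mem_filter]
      exact ⟨Finset.mem_univ _, by rw [(h i).1]; exact hi.2⟩
  have h2 : (univ.filter (fun i => i < σ i)) ∪ (univ.filter (fun i => σ i < i)) =
      (univ : Finset (Fin (2 * r))) := by
    ext i
    simp only [Finset.mem_union, Finset.mem_filter, Finset.mem_univ, true_and, iff_true]
    rcases lt_trichotomy i (σ i) with h3 | h3 | h3
    · exact Or.inl h3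
    · exact absurd h3.symm (h i).2
    · exact Or.inr h3
  have h3 : Disjoint (univ.filter (fun i => i < σ i)) (univ.filter (fun i => σ i < i)) := by
    rw [Finset.disjoint_left]
    intro i hi hj
    rw [Finset.mem_filter] at hi hj
    exact lt_asymm hi.2 hj.2
  have h4 := Finset.card_union_of_disjoint h3
  rw [h2, Finset.card_univ, Fintype.card_fin, h1] at h4
  omega

theorem tInt : S_Int := by
  intro r m _ σ τ hσ hτ hne
  obtain ⟨i0, hi0⟩ : ∃ i0, σ i0 ≠ τ i0 := by
    by_contra hcon
    push Not at hcon
    exact hne (Equiv.ext hcon)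
  set R : Finset (Fin (2 * r)) := univ.filter (fun i => i < σ i) with hR
  have hRc : R.card = r := Int_card σ hσ
  let ρ : Fin (2 * r) → Fin (2 * r) := fun i => if i < σ i then i else σ i
  have hρR : ∀ i, ρ i ∈ R := by
    intro i
    rw [hR, Finset.mem_filter]
    refine ⟨Finset.mem_univ _, ?_⟩
    show ρ i < σ (ρ i)
    by_cases h : i < σ i
    · have e : ρ i = i := if_pos h
      rw [e]; exact h
    · have e : ρ i = σ i := if_neg h
      rw [e, (hσ i).1]
      exact lt_of_le_of_ne (not_lt.1 h) (hσ i).2
  have hρ2 : ∀ i, ρ i = i ∨ ρ i = σ i := by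
    intro i
    by_cases h : i < σ i
    · exact Or.inl (if_pos h)
    · exact Or.inr (if_neg h)
  have hρne : ρ i0 ≠ ρ (τ i0) := by
    intro h
    have h5 : τ i0 = i0 ∨ τ i0 = σ i0 := by
      rcases hρ2 i0 with h1 | h1 <;> rcases hρ2 (τ i0) with h2 | h2
      · left; rw [← h2, ← h, h1]
      · right
        have h3 : σ (τ i0) = i0 := by rw [← h2, ← h, h1]
        have h4 := congrArg σ h3
        rw [(hσ _).1] at h4
        exact h4
      · right; rw [← h2, ← h, h1]
      · left
        have h3 : σ (τ i0) = σ i0 := by rw [← h2, ← h, h1]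
        exact σ.injective h3
    rcases h5 with h5 | h5
    · exact (hτ i0).2 h5
    · exact hi0 h5.symm
  set R' := R.erase (ρ (τ i0)) with hR'
  have hR'c : R'.card = r - 1 := by
    rw [hR', Finset.card_erase_of_mem (hρR _), hRc]
  have key : {a : Fin (2 * r) → ZMod m | ∀ i, a (σ i) = -a i ∧ a (τ i) = -a i}.ncard ≤
      (Set.univ : Set ({i // i ∈ R'} → ZMod m)).ncard := by
    refine Set.ncard_le_ncard_of_injOn (fun a i => a i.1) (fun _ _ => Set.mem_univ _) ?_
      Set.finite_univ
    intro a ha b hb hab
    have hab' : ∀ i ∈ R', a i = b i := fun i hi => congrFun hab ⟨i, hi⟩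
    have hs : ∀ i, a (ρ i) = b (ρ i) → a i = b i := by
      intro i h
      rcases hρ2 i with h1 | h1
      · rw [h1] at h; exact h
      · rw [h1, (ha i).1, (hb i).1] at h
        exact neg_injective h
    have hs' : ∀ i, a i = b i → a (ρ i) = b (ρ i) := by
      intro i h
      rcases hρ2 i with h1 | h1
      · rw [h1]; exact h
      · rw [h1, (ha i).1, (hb i).1, h]
    have h1 : a i0 = b i0 := by
      apply hs
      apply hab'
      rw [hR', Finset.mem_erase]
      exact ⟨hρne, hρR i0⟩
    have h2 : a (τ i0) = b (τ i0) := by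
      rw [(ha i0).2, (hb i0).2, h1]
    have h3 := hs' _ h2
    funext i
    apply hs
    by_cases h : ρ i = ρ (τ i0)
    · rw [h]; exact h3
    · apply hab'
      rw [hR', Finset.mem_erase]
      exact ⟨h, hρR i⟩
  refine key.trans (le_of_eq ?_)
  rw [Set.ncard_univ, Nat.card_eq_fintype_card, Fintype.card_fun, ZMod.card, Fintype.card_coe,
    hR'c]

end Pool.Agent.FC
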