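import Pool.Agent.Lib.MP_640417_ag.FC.SpecB

/-!
# MP_640417_ag, FC, JV: the `p`-adic value of a Jacobi sum of powers of the Teichmüller character
-/

set_option autoImplicit false

noncomputable section

namespace Pool.Agent.FC

open Finset

private theorem sumPow_lt {l : ℕ} [Fact l.Prime] (j : ℕ) (hj : j < l - 1) :
    ∑ x : ZMod l, x ^ j = 0 := by
  refine FiniteField.sum_pow_lt_card_sub_one (K := ZMod l) j ?_
  rwa [ZMod.card]

private theorem sumPow_eq {l : ℕ} [Fact l.Prime] :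
    ∑ x : ZMod l, x ^ (l - 1) = -1 := by
  have hl : 1 < l := (Fact.out : l.Prime).one_lt
  have h1 : ∀ x : ZMod l, x ^ (l - 1) = 1 - (if x = 0 then 1 else 0) := by
    intro x
    by_cases hx : x = 0
    · rw [if_pos hx, hx, zero_pow (by omega), sub_self]
    · rw [if_neg hx, ZMod.pow_card_sub_one_eq_one hx, sub_zero]
  rw [Finset.sum_congr rfl fun x _ => h1 x, Finset.sum_sub_distrib, Finset.sum_ite_eq']
  simp

private theorem sumPow_gt {l : ℕ} [Fact l.Prime] (j : ℕ) (hj : l - 1 < j) (hj2 : j < 2 * (l - 1)) :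
    ∑ x : ZMod l, x ^ j = 0 := by
  have h1 : ∀ x : ZMod l, x ^ j = x ^ (j - (l - 1)) := by
    intro x
    by_cases hx : x = 0
    · rw [hx, zero_pow (by omega), zero_pow (by omega)]
    · have h2 : x ^ j = x ^ (j - (l - 1)) * x ^ (l - 1) := by
        rw [← pow_add]
        congr 1
        omega
      rw [h2, ZMod.pow_card_sub_one_eq_one hx, mul_one]
  rw [Finset.sum_congr rfl fun x _ => h1 x]
  exact sumPow_lt _ (by omega)

private theorem expand {l : ℕ} [Fact l.Prime] (A B : ℕ) :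
    (∑ x : ZMod l, x ^ A * (1 - x) ^ B) =
      ∑ i ∈ Finset.range (B + 1), (-1) ^ i * (B.choose i : ZMod l) * ∑ x : ZMod l, x ^ (A + i) := by
  have h1 : ∀ x : ZMod l, x ^ A * (1 - x) ^ B =
      ∑ i ∈ Finset.range (B + 1), (-1) ^ i * (B.choose i : ZMod l) * x ^ (A + i) := by
    intro x
    have h2 : (1 - x) ^ B = ((-x) + 1) ^ B := by ring
    rw [h2, add_pow, Finset.mul_sum]
    refine Finset.sum_congr rfl fun i _ => ?_
    rw [one_pow, neg_pow, pow_add]
    ring
  rw [Finset.sum_congr rfl fun x _ => h1 x, Finset.sum_comm]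
  refine Finset.sum_congr rfl fun i _ => ?_
  rw [Finset.mul_sum]

private theorem sum_ne (l : ℕ) [Fact l.Prime] (A B : ℕ) (hA : 0 < A) (hA' : A < l - 1)
    (hB' : B < l - 1) (hc : l - 1 ≤ A + B) :
    (∑ x : ZMod l, x ^ A * (1 - x) ^ B) ≠ 0 := by
  have hl : l.Prime := Fact.out
  rw [expand]
  intro h
  rw [Finset.sum_eq_single (l - 1 - A)] at h
  · rw [show A + (l - 1 - A) = l - 1 by omega, sumPow_eq] at h
    have h3 : (B.choose (l - 1 - A) : ZMod l) = 0 := by
      rcases mul_eq_zero.1 h with h4 | h4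
      · rcases mul_eq_zero.1 h4 with h5 | h5
        · exact absurd h5 (pow_ne_zero _ (neg_ne_zero.2 one_ne_zero))
        · exact h5
      · exact absurd h4 (neg_ne_zero.2 one_ne_zero)
    rw [ZMod.natCast_eq_zero_iff] at h3
    have h6 : l ∣ B.factorial := by
      have h7 := Nat.choose_mul_factorial_mul_factorial (n := B) (k := l - 1 - A) (by omega)
      rw [← h7]
      exact (h3.mul_right _).mul_right _
    have h8 := (Nat.Prime.dvd_factorial hl).1 h6
    omega
  · intro i hi hne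
    rw [Finset.mem_range] at hi
    rcases lt_trichotomy (A + i) (l - 1) with h4 | h4 | h4
    · rw [sumPow_lt _ h4, mul_zero]
    · omega
    · rw [sumPow_gt _ h4 (by omega), mul_zero]
  · intro hn
    rw [Finset.mem_range] at hn
    omega

private theorem unit_of {p : ℕ} [Fact p.Prime] (z : ℤ_[p]) (h : PadicInt.toZMod z ≠ 0) :
    IsUnit z := by
  have h1 : z ∉ IsLocalRing.maximalIdeal ℤ_[p] := by
    rw [← PadicInt.ker_toZMod, RingHom.mem_ker]
    exact h
  exact IsLocalRing.notMem_maximalIdeal.1 h1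

private theorem jac_mul {p : ℕ} [hp : Fact p.Prime]
    (φ ψ : MulChar (ZMod p) ℤ_[p]) (h1 : φ ≠ 1) (h2 : ψ ≠ 1) (h3 : φ * ψ ≠ 1) :
    jacobiSum φ ψ * jacobiSum φ⁻¹ ψ⁻¹ = (p : ℤ_[p]) := by
  have hinj : Function.Injective (algebraMap ℤ_[p] ℚ_[p]) := FaithfulSMul.algebraMap_injective _ _
  have h1' := (MulChar.ringHomComp_ne_one_iff hinj).2 h1
  have h2' := (MulChar.ringHomComp_ne_one_iff hinj).2 h2
  have h3' := (MulChar.ringHomComp_ne_one_iff hinj).2 h3
  rw [MulChar.ringHomComp_mul] at h3'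
  have hch : ringChar ℚ_[p] ≠ ringChar (ZMod p) := by
    rw [ZMod.ringChar_zmod_n, ringChar.eq_zero]
    exact (hp.out.ne_zero).symm
  have h4 := jacobiSum_mul_jacobiSum_inv hch h1' h2' h3'
  rw [MulChar.ringHomComp_inv, MulChar.ringHomComp_inv, jacobiSum_ringHomComp,
    jacobiSum_ringHomComp, ← map_mul, ZMod.card] at h4
  apply hinj
  rw [h4, map_natCast]

theorem tJV : S_JV := by
  intro p hp ω hω A B hA hA' hB hB'
  -- the reduction of a Jacobi sum
  have hred : ∀ a b : ℕ, 0 < a → 0 < b → PadicInt.toZMod (jacobiSum (ω ^ a) (ω ^ b)) =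
      ∑ x : ZMod p, x ^ a * (1 - x) ^ b := by
    intro a b ha hb
    unfold jacobiSum
    rw [map_sum]
    refine Finset.sum_congr rfl fun x _ => ?_
    rw [map_mul, MulChar.pow_apply' ω ha.ne', MulChar.pow_apply' ω hb.ne', map_pow, map_pow,
      hω, hω]
  have hunit : ∀ a b : ℕ, 0 < a → a < p - 1 → 0 < b → b < p - 1 → p - 1 ≤ a + b →
      IsUnit (jacobiSum (ω ^ a) (ω ^ b)) := by
    intro a b ha ha' hb hb' hab
    apply unit_of
    rw [hred a b ha hb]
    exact sum_ne p a b ha ha' hb' hab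
  refine ⟨fun hAB => ?_, fun hAB => hunit A B hA hA' hB hB' hAB⟩
  -- `ω ^ (p - 1) = 1`
  have hω1 : ω ^ (p - 1) = 1 := by
    apply MulChar.ext
    intro a
    rw [MulChar.pow_apply_coe, MulChar.one_apply_coe, ← map_pow,
      ZMod.pow_card_sub_one_eq_one a.ne_zero, map_one]
  have htriv : ∀ n : ℕ, 0 < n → n < p - 1 → ω ^ n ≠ 1 := by
    intro n hn hn' h
    obtain ⟨g, hg⟩ := IsCyclic.exists_generator (α := (ZMod p)ˣ)
    have hgo : orderOf g = p - 1 := by
      rw [orderOf_eq_card_of_forall_mem_zpowers hg, Nat.card_eq_fintype_card, ZMod.card_units]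
    have h3 : (ω ^ n) (g : ZMod p) = ω (g : ZMod p) ^ n := MulChar.pow_apply_coe ω n g
    rw [h, MulChar.one_apply_coe] at h3
    have h4 : (g : ZMod p) ^ n = 1 := by
      have h5 := congrArg (PadicInt.toZMod (p := p)) h3
      rw [map_one, map_pow, hω] at h5
      exact h5.symm
    have h5 : g ^ n = 1 := by
      ext
      rw [Units.val_pow_eq_pow_val, Units.val_one]
      exact h4
    have h6 := Nat.le_of_dvd hn (orderOf_dvd_of_pow_eq_one h5)
    rw [hgo] at h6
    omega
  have hinv : ∀ n : ℕ, n ≤ p - 1 → (ω ^ n)⁻¹ = ω ^ (p - 1 - n) := by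
    intro n hn
    apply inv_eq_of_mul_eq_one_right
    rw [← pow_add, Nat.add_sub_cancel' hn, hω1]
  obtain ⟨u, hu⟩ := hunit (p - 1 - A) (p - 1 - B) (by omega) (by omega) (by omega) (by omega)
    (by omega)
  have hJ := jac_mul (ω ^ A) (ω ^ B) (htriv A hA hA') (htriv B hB hB')
    (by rw [← pow_add]; exact htriv (A + B) (by omega) hAB)
  rw [hinv A hA'.le, hinv B hB'.le, ← hu] at hJ
  refine ⟨u⁻¹, ?_⟩
  rw [← hJ, mul_assoc, Units.mul_inv, mul_one]

end Pool.Agent.FC
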