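import Pool.Agent.Lib.MP_640417_ag.FC.SpecB

set_option autoImplicit false

noncomputable section

open Finset

namespace Pool.Agent.FC

private theorem kroKey {K : Type} [Field K] [NumberField K] (m : ℕ) (hm : 0 < m) (z : K)
    (hz : IsPrimitiveRoot z m) (P : Polynomial ℤ)
    (hP : ∀ ζ : ℂ, IsPrimitiveRoot ζ m → ‖Polynomial.aeval ζ P‖ = 1) (ζ : ℂ)
    (hζ : IsPrimitiveRoot ζ m) : ∃ k : ℕ, 0 < k ∧ Polynomial.aeval ζ P ^ k = 1 := by
  have hzi : IsIntegral ℤ z := hz.isIntegral hm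
  have hαi : IsIntegral ℤ (Polynomial.aeval z P) := by
    have h1 : Polynomial.aeval z P ∈ Algebra.adjoin ℤ ({z} : Set K) :=
      Polynomial.aeval_mem_adjoin_singleton ℤ z
    have h2 : Algebra.adjoin ℤ ({z} : Set K) ≤ integralClosure ℤ K :=
      Algebra.adjoin_le (Set.singleton_subset_iff.2 hzi)
    exact h2 h1
  have hn : ∀ φ : K →+* ℂ, ‖φ (Polynomial.aeval z P)‖ = 1 := by
    intro φ
    have h1 : φ (Polynomial.aeval z P) = Polynomial.aeval (φ z) P := by
      rw [Polynomial.aeval_def, Polynomial.hom_eval₂, Polynomial.aeval_def]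
      rw [RingHom.ext_int (φ.comp (algebraMap ℤ K)) (algebraMap ℤ ℂ)]
    rw [h1]
    exact hP _ (hz.map_of_injective φ.injective)
  obtain ⟨n, hn0, hn1⟩ := NumberField.Embeddings.pow_eq_one_of_norm_eq_one K ℂ hαi hn
  refine ⟨n, hn0, ?_⟩
  have h2 : Polynomial.aeval z (P ^ n - 1) = 0 := by
    rw [map_sub, map_pow, hn1, map_one, sub_self]
  have h3 : minpoly ℤ z ∣ P ^ n - 1 := minpoly.isIntegrallyClosed_dvd hzi h2
  rw [← Polynomial.cyclotomic_eq_minpoly hz hm, Polynomial.cyclotomic_eq_minpoly hζ hm] at h3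
  obtain ⟨Q, hQ⟩ := h3
  have h4 : Polynomial.aeval ζ (P ^ n - 1) = 0 := by
    rw [hQ, map_mul, minpoly.aeval, zero_mul]
  rw [map_sub, map_pow, map_one, sub_eq_zero] at h4
  exact h4

theorem tKro : S_Kro := by
  intro m P hm hP ζ hζ
  have i1 : NeZero m := ⟨by omega⟩
  have i2 : NeZero ((m : ℕ) : ℚ) := ⟨by exact_mod_cast hm.ne'⟩
  have i3 : IsCyclotomicExtension {m} ℚ (CyclotomicField m ℚ) :=
    CyclotomicField.isCyclotomicExtension m ℚ
  exact kroKey m hm (IsCyclotomicExtension.zeta m ℚ (CyclotomicField m ℚ))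
    (IsCyclotomicExtension.zeta_spec m ℚ (CyclotomicField m ℚ)) P hP ζ hζ

end Pool.Agent.FC
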