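import Pool.Agent.Lib.MP_640417_ag.FC.SpecB

set_option autoImplicit false

noncomputable section

namespace Pool.Agent.FC

open Finset

/-- An involution without fixed points has cycle type `{2, …, 2}`. -/
private theorem ct_of (n : ℕ) (σ : Equiv.Perm (Fin (2 * (n + 1)))) (h : ∀ i, σ (σ i) = i ∧ σ i ≠ i) :
    σ.cycleType = Multiset.replicate (n + 1) 2 := by
  have h1 : σ ≠ 1 := by
    intro h1
    have := (h ⟨0, by omega⟩).2
    rw [h1] at this
    exact this rfl
  have h2 : σ ^ 2 = 1 := by
    ext i
    rw [pow_two, Equiv.Perm.mul_apply, (h i).1, Equiv.Perm.one_apply]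
  have ho : orderOf σ = 2 := orderOf_eq_prime h2 h1
  obtain ⟨k, hk⟩ := Equiv.Perm.cycleType_prime_order (σ := σ) (by rw [ho]; exact Nat.prime_two)
  rw [ho] at hk
  have hs := Equiv.Perm.sum_cycleType σ
  rw [hk, Multiset.sum_replicate, smul_eq_mul] at hs
  have hu : σ.support = Finset.univ := by
    ext i
    simp only [Equiv.Perm.mem_support, Finset.mem_univ, iff_true]
    exact (h i).2
  rw [hu, Finset.card_univ, Fintype.card_fin] at hs
  have : k = n := by omega
  rw [hk, this]

private theorem of_ct (n : ℕ) (σ : Equiv.Perm (Fin (2 * (n + 1))))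
    (h : σ.cycleType = Multiset.replicate (n + 1) 2) : ∀ i, σ (σ i) = i ∧ σ i ≠ i := by
  have hs := Equiv.Perm.sum_cycleType σ
  rw [h, Multiset.sum_replicate, smul_eq_mul] at hs
  have hu : σ.support = Finset.univ := by
    apply Finset.eq_univ_of_card
    rw [← hs, Fintype.card_fin]
    ring
  have ho : orderOf σ ∣ 2 := by
    rw [← Equiv.Perm.lcm_cycleType, h]
    apply Multiset.lcm_dvd.2
    intro b hb
    rw [Multiset.eq_of_mem_replicate hb]
  have h2 : σ ^ 2 = 1 := orderOf_dvd_iff_pow_eq_one.1 ho
  intro i
  constructor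
  · have := Equiv.Perm.congr_fun h2 i
    rw [pow_two, Equiv.Perm.mul_apply, Equiv.Perm.one_apply] at this
    exact this
  · have : i ∈ σ.support := by rw [hu]; exact Finset.mem_univ i
    exact Equiv.Perm.mem_support.1 this

theorem tMat : S_Mat := by
  intro r
  rcases r with _ | n
  · have h0 : {σ : Equiv.Perm (Fin (2 * 0)) | ∀ i, σ (σ i) = i ∧ σ i ≠ i} = Set.univ := by
      ext σ
      simp only [Set.mem_ofPred_eq, Set.mem_univ, iff_true]
      intro i
      exact absurd i.2 (by omega)
    have hsub : Subsingleton (Equiv.Perm (Fin (2 * 0))) := by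
      constructor
      intro a b
      ext i
      exact absurd i.2 (by omega)
    rw [h0, Set.ncard_univ, Nat.card_unique]
    rfl
  · have hset : {σ : Equiv.Perm (Fin (2 * (n + 1))) | ∀ i, σ (σ i) = i ∧ σ i ≠ i} =
        ↑({g | g.cycleType = Multiset.replicate (n + 1) 2} : Finset (Equiv.Perm (Fin (2 * (n + 1))))) := by
      ext σ
      simp only [Set.mem_ofPred_eq, Finset.coe_filter, Finset.mem_univ, true_and]
      exact ⟨ct_of n σ, of_ct n σ⟩
    rw [hset, Set.ncard_coe_finset]
    have key := Equiv.Perm.card_of_cycleType_mul_eq (Fin (2 * (n + 1))) (Multiset.replicate (n + 1) 2)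
    rw [if_pos] at key
    · have hT : (Multiset.replicate (n + 1) 2).toFinset = {2} := by
        rw [Multiset.toFinset_replicate, if_neg (by omega)]
      rw [hT, Finset.prod_singleton, Multiset.count_replicate_self, Multiset.prod_replicate,
        Multiset.sum_replicate, Fintype.card_fin, smul_eq_mul, mul_comm (n + 1) 2, Nat.sub_self,
        Nat.factorial_zero, one_mul] at key
      have e : 2 * (n + 1) = (2 * n + 1) + 1 := by ring
      have hf : Nat.factorial (2 * (n + 1)) =
          (2 ^ (n + 1) * Nat.factorial (n + 1)) * Nat.doubleFactorial (2 * (n + 1) - 1) := by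
        rw [← Nat.doubleFactorial_two_mul, e, Nat.add_sub_cancel, Nat.factorial_eq_mul_doubleFactorial]
      rw [hf, mul_comm] at key
      have hpos : 0 < 2 ^ (n + 1) * Nat.factorial (n + 1) := by positivity
      exact Nat.eq_of_mul_eq_mul_left hpos key
    · constructor
      · rw [Multiset.sum_replicate, smul_eq_mul, Fintype.card_fin, mul_comm]
      · intro a ha
        rw [Multiset.eq_of_mem_replicate ha]

end Pool.Agent.FC
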