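import Pool.Agent.Lib.MP_640417_ag.FC.SpecB

/-!
# Fermat characters: few blocks or a sum of pairs
-/

set_option autoImplicit false

noncomputable section

open Finset

namespace Pool.Agent.FC

/-- The number of indices is the number of those in `none` and of those in the blocks. -/
private theorem ps_sum {N : ℕ} (b : Fin N → Option (Fin N)) :
    N = #{i | b i = none} + ∑ β : Fin N, #{i | b i = some β} := by
  have h := Finset.card_eq_sum_card_fiberwise (f := b) (s := (univ : Finset (Fin N)))
    (t := (univ : Finset (Option (Fin N)))) (fun i _ => mem_coe.2 (mem_univ (b i)))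
  rw [Fintype.sum_option, card_univ, Fintype.card_fin] at h
  exact h

/-- If the number of blocks is large, all blocks have two elements, and there is no index in `none`. -/
private theorem ps_two {N : ℕ} (b : Fin N → Option (Fin N)) (h1 : ∀ β : Fin N, #{i | b i = some β} ≠ 1)
    (h : N ≤ 2 * #{β : Fin N | ∃ i, b i = some β}) :
    ∀ i, ∃ β, b i = some β ∧ #{j | b j = some β} = 2 := by
  classical
  have hs := ps_sum b
  have hle : ∀ β ∈ (univ : Finset (Fin N)), (if ∃ i, b i = some β then 2 else 0) ≤
      #{i | b i = some β} := by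
    intro β _
    split_ifs with hβ
    · obtain ⟨i, hi⟩ := hβ
      have h0 : 0 < #{i | b i = some β} := card_pos.2 ⟨i, mem_filter.2 ⟨mem_univ i, hi⟩⟩
      have := h1 β
      omega
    · exact Nat.zero_le _
  have hB : ∑ β : Fin N, (if ∃ i, b i = some β then 2 else 0) =
      2 * #{β : Fin N | ∃ i, b i = some β} := by
    rw [← sum_filter, sum_const, smul_eq_mul, mul_comm]
  have hsum := sum_le_sum hle
  have heq : ∑ β : Fin N, (if ∃ i, b i = some β then 2 else 0) =
      ∑ β : Fin N, #{i | b i = some β} := by omega
  have hnone : #{i | b i = none} = 0 := by omega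
  have hall := (sum_eq_sum_iff_of_le hle).1 heq
  intro i
  cases hbi : b i with
  | none =>
    have hi : i ∈ ({i | b i = none} : Finset (Fin N)) := mem_filter.2 ⟨mem_univ i, hbi⟩
    rw [card_eq_zero.1 hnone] at hi
    exact absurd hi (notMem_empty i)
  | some β =>
    refine ⟨β, rfl, ?_⟩
    rw [← hall β (mem_univ β), if_pos ⟨i, hbi⟩]

/-- **PS.** -/
theorem tPS : S_PS := by
  classical
  intro N m a b hb
  by_cases h : 2 * #{β : Fin N | ∃ i, b i = some β} < N
  · exact Or.inl h
  right
  have htwo := ps_two b (fun β => (hb β).1) (not_lt.1 h)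
  have hex : ∀ i, ∃ j, j ≠ i ∧ b j = b i ∧ (∀ k, b k = b i → k = i ∨ k = j) ∧ a j = -a i := by
    intro i
    obtain ⟨β, hβ, hc⟩ := htwo i
    obtain ⟨x, y, hxy, hS⟩ := card_eq_two.1 hc
    have hi : i ∈ ({x, y} : Finset (Fin N)) := by
      rw [← hS]
      exact mem_filter.2 ⟨mem_univ i, hβ⟩
    have hx : b x = some β := by
      have : x ∈ ({j | b j = some β} : Finset (Fin N)) := by rw [hS]; simp
      exact (mem_filter.1 this).2
    have hy : b y = some β := by
      have : y ∈ ({j | b j = some β} : Finset (Fin N)) := by rw [hS]; simp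
      exact (mem_filter.1 this).2
    have hk : ∀ k, b k = b i → k = x ∨ k = y := by
      intro k hk
      have : k ∈ ({x, y} : Finset (Fin N)) := by
        rw [← hS]
        exact mem_filter.2 ⟨mem_univ k, hk.trans hβ⟩
      simpa using this
    have ha : a x + a y = 0 := by
      have := (hb β).2 hc
      rw [hS, sum_pair hxy] at this
      exact this
    rcases (by simpa using hi : i = x ∨ i = y) with rfl | rfl
    · exact ⟨y, hxy.symm, hy.trans hx.symm, hk, by rw [eq_neg_iff_add_eq_zero, add_comm]; exact ha⟩
    · exact ⟨x, hxy, hx.trans hy.symm, fun k h => (hk k h).symm, eq_neg_iff_add_eq_zero.2 ha⟩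
  choose s hs1 hs2 hs3 hs4 using hex
  have hinv : Function.Involutive s := by
    intro i
    rcases hs3 i (s (s i)) ((hs2 (s i)).trans (hs2 i)) with h | h
    · exact h
    · exact absurd h (hs1 (s i))
  exact ⟨hinv.toPerm s, fun i => ⟨hinv i, hs1 i, hs4 i⟩⟩

end Pool.Agent.FC
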