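import Pool.Agent.Lib.MP_640417_ag.FC.SpecB

set_option autoImplicit false

noncomputable section

namespace Pool.Agent.FC

open Finset

private theorem pt_sum {m N : ℕ} [NeZero m] {a : Fin N → ZMod m}
    (σ : Equiv.Perm (Fin N)) (hσ : ∀ i, σ (σ i) = i ∧ σ i ≠ i ∧ a (σ i) = -a i) :
    ∑ i, a i = 0 := by
  refine Finset.sum_involution (fun i _ => σ i) ?_ ?_ ?_ ?_
  · intro i _
    rw [(hσ i).2.2]
    exact add_neg_cancel (a i)
  · intro i _ _
    exact (hσ i).2.1
  · intro i _
    exact Finset.mem_univ _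
  · intro i _
    exact (hσ i).1

private theorem pt_pair {m : ℕ} [NeZero m] (x : ZMod m) (hx : x ≠ 0) (t : ℕ) (ht : t.Coprime m) :
    t * x.val % m + t * (-x).val % m = m := by
  have hm : 0 < m := Nat.pos_of_ne_zero (NeZero.ne m)
  -- both residues are less than `m`
  have h1 : t * x.val % m < m := Nat.mod_lt _ hm
  have h2 : t * (-x).val % m < m := Nat.mod_lt _ hm
  -- the first one is not zero
  have h3 : t * x.val % m ≠ 0 := by
    intro h
    have h4 : m ∣ t * x.val := Nat.dvd_of_mod_eq_zero h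
    have h5 : m ∣ x.val := (Nat.Coprime.dvd_of_dvd_mul_left ht.symm h4)
    have h6 : x.val = 0 := Nat.eq_zero_of_dvd_of_lt h5 (ZMod.val_lt x)
    exact hx ((ZMod.val_eq_zero x).mp h6)
  -- the sum is divisible by `m`
  have h7 : m ∣ x.val + (-x).val := by
    rw [← ZMod.natCast_eq_zero_iff]
    push_cast
    rw [ZMod.natCast_zmod_val, ZMod.natCast_zmod_val]
    exact add_neg_cancel x
  have h8 : m ∣ t * x.val % m + t * (-x).val % m := by
    have h9 : m ∣ t * x.val + t * (-x).val := by
      rw [← mul_add]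
      exact Dvd.dvd.mul_left h7 t
    rw [Nat.dvd_iff_mod_eq_zero, Nat.add_mod] at h9
    exact Nat.dvd_of_mod_eq_zero (by simpa using h9)
  obtain ⟨c, hc⟩ := h8
  have hc1 : 0 < c := by
    rcases Nat.eq_zero_or_pos c with h | h
    · subst h
      omega
    · exact h
  have hc2 : c < 2 := by
    by_contra h
    have : m * 2 ≤ m * c := Nat.mul_le_mul_left m (by omega)
    omega
  have hc3 : c = 1 := by omega
  subst hc3
  omega

theorem tPT (h1 : S_RT) : S_PT := by
  intro m N _ a ha hp
  obtain ⟨σ, hσ⟩ := hp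
  refine ⟨ha, pt_sum σ hσ, ?_⟩
  refine h1 m N a ha ?_
  intro t ht
  have e1 : ∑ i, (t * (a (σ i)).val % m) = ∑ i, (t * (a i).val % m) :=
    Equiv.sum_comp σ (fun i => t * (a i).val % m)
  have e2 : ∑ i : Fin N, (t * (a i).val % m + t * (a (σ i)).val % m) = N * m := by
    have : ∀ i : Fin N, t * (a i).val % m + t * (a (σ i)).val % m = m := by
      intro i
      rw [(hσ i).2.2]
      exact pt_pair (a i) (ha i) t ht
    rw [Finset.sum_congr rfl (fun i _ => this i)]
    simp
  rw [Finset.sum_add_distrib, e1] at e2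
  omega

end Pool.Agent.FC
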