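import Pool.Agent.Lib.MP_640417_ag.FC.SpecB

/-!
# MP_640417_ag, project FC, module B/Pol: `GP m χ a` is a polynomial in `χ(g)`
-/

set_option autoImplicit false

noncomputable section

namespace Pool.Agent.FC

open Finset

/-- discrete logarithms -/
private theorem Pol_exp (p : ℕ) [Fact p.Prime] (g : (ZMod p)ˣ)
    (hg : ∀ x : (ZMod p)ˣ, x ∈ Subgroup.zpowers g) :
    ∃ e : ZMod p → ℕ, ∀ x : ZMod p, x ≠ 0 → (g : ZMod p) ^ e x = x := by
  have h : ∀ x : ZMod p, ∃ n : ℕ, x ≠ 0 → (g : ZMod p) ^ n = x := by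
    intro x
    by_cases hx : x = 0
    · exact ⟨0, fun h => absurd hx h⟩
    · have h1 := hg (Units.mk0 x hx)
      rw [← mem_powers_iff_mem_zpowers] at h1
      obtain ⟨n, hn⟩ := h1
      refine ⟨n, fun _ => ?_⟩
      have h2 := congrArg (fun u : (ZMod p)ˣ => (u : ZMod p)) hn
      simpa using h2
  choose e he using h
  exact ⟨e, he⟩

/-- the values of the powers of a character -/
private theorem Pol_val (p : ℕ) [Fact p.Prime] (g : (ZMod p)ˣ) (e : ZMod p → ℕ)
    (he : ∀ x : ZMod p, x ≠ 0 → (g : ZMod p) ^ e x = x) (R : Type) [CommRing R]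
    (χ : MulChar (ZMod p) R) (r : ℕ) (x : ZMod p) (hx : x ≠ 0) :
    (χ ^ r) x = χ (g : ZMod p) ^ (r * e x) := by
  have h1 : (χ ^ r) x = (χ ^ r) ((g : ZMod p) ^ e x) := by rw [he x hx]
  rw [h1, map_pow, MulChar.pow_apply_coe, ← pow_mul]

theorem tPol : S_Pol := by
  intro p m a _ g hg
  obtain ⟨e, he⟩ := Pol_exp p g hg
  refine ⟨Polynomial.X ^ (a * e (-1)) * Polynomial.C (p : ℤ) *
    ∏ i ∈ Ico 1 (m / m.gcd a - 1), ∑ x : ZMod p, (if x = 0 ∨ 1 - x = 0 then 0
      else Polynomial.X ^ (a * e x + a * i * e (1 - x))), ?_⟩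
  intro R _ χ
  have hneg : (-1 : ZMod p) ≠ 0 := neg_ne_zero.2 one_ne_zero
  unfold GP
  rw [map_mul, map_mul, map_pow, Polynomial.aeval_X, Polynomial.aeval_C, map_prod,
    Pol_val p g e he R χ a (-1) hneg]
  congr 1
  · simp
  · refine Finset.prod_congr rfl fun i _ => ?_
    rw [map_sum, jacobiSum]
    refine Finset.sum_congr rfl fun x _ => ?_
    by_cases hx : x = 0
    · rw [if_pos (Or.inl hx), map_zero, hx,
        MulChar.map_nonunit _ (by simp : ¬ IsUnit (0 : ZMod p)), zero_mul]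
    · by_cases hx1 : 1 - x = 0
      · rw [if_pos (Or.inr hx1), map_zero, hx1,
          MulChar.map_nonunit (χ ^ (a * i)) (by simp : ¬ IsUnit (0 : ZMod p)), mul_zero]
      · rw [if_neg (not_or.2 ⟨hx, hx1⟩), map_pow, Polynomial.aeval_X, pow_add,
          Pol_val p g e he R χ a x hx, Pol_val p g e he R χ (a * i) (1 - x) hx1]

end Pool.Agent.FC
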