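import Pool.Agent.Lib.MP_640417_ag.FC.SpecB

/-!
# Project FC, module RM: the relation for tuples of level `m` in terms of residues
-/

set_option autoImplicit false

noncomputable section

namespace Pool.Agent.FC

open Finset

private theorem rm_sw (h2 : S_Sw) (m : ℕ) [NeZero m] (j : ZMod m) (t : ℕ) :
    sw (t • ZMod.toAddCircle j) = ((t * j.val % m : ℕ) : ℝ) / m - 1 / 2 := by
  have hr := h2.2.1
  have e1 : t • (ZMod.toAddCircle j : UnitAddCircle) =
      ((((t * j.val : ℕ) : ℝ) / (m : ℝ) : ℝ) : UnitAddCircle) := by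
    rw [ZMod.toAddCircle_apply, ← AddCircle.coe_nsmul, nsmul_eq_mul]
    congr 1
    push_cast
    ring
  rw [e1, hr, Int.fract_div_natCast_eq_div_natCast_mod]

private theorem rm_sum (h2 : S_Sw) (m N : ℕ) [NeZero m] (a : Fin N → ZMod m) (t : ℕ) :
    ∑ i, sw (t • ZMod.toAddCircle (a i)) = 0 ↔ 2 * ∑ i, (t * (a i).val % m) = N * m := by
  have hm : (m : ℝ) ≠ 0 := Nat.cast_ne_zero.mpr (NeZero.ne m)
  have e1 : ∑ i, sw (t • ZMod.toAddCircle (a i)) =
      ((∑ i, (t * (a i).val % m) : ℕ) : ℝ) / m - (N : ℝ) * (1 / 2) := by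
    rw [Finset.sum_congr rfl (fun i _ => rm_sw h2 m (a i) t), Finset.sum_sub_distrib,
      ← Finset.sum_div]
    simp
  rw [e1]
  constructor
  · intro h
    have h3 : (2 : ℝ) * ((∑ i, (t * (a i).val % m) : ℕ) : ℝ) = (N : ℝ) * (m : ℝ) := by
      field_simp at h
      linarith
    exact_mod_cast h3
  · intro h
    have h3 : (2 : ℝ) * ((∑ i, (t * (a i).val % m) : ℕ) : ℝ) = (N : ℝ) * (m : ℝ) := by
      exact_mod_cast h
    field_simp
    linarith

private theorem rm_ord (m : ℕ) [NeZero m] (j : ZMod m) :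
    addOrderOf (ZMod.toAddCircle j : UnitAddCircle) ∣ m := by
  refine addOrderOf_dvd_of_nsmul_eq_zero ?_
  rw [← map_nsmul]
  have : m • j = 0 := by
    rw [nsmul_eq_mul, ZMod.natCast_self, zero_mul]
  rw [this, map_zero]

theorem tRM (h1 : S_Cop) (h2 : S_Sw) : S_RM := by
  intro m N _ a
  have hm : 0 < m := Nat.pos_of_ne_zero (NeZero.ne m)
  constructor
  · intro h t ht
    rw [← rm_sum h2]
    exact h t (fun i _ => Nat.Coprime.coprime_dvd_right (rm_ord m (a i)) ht)
  · intro h t ht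
    have hL : 0 < ∏ i, addOrderOf (ZMod.toAddCircle (a i) : UnitAddCircle) :=
      Finset.prod_pos (fun i _ => Nat.pos_of_dvd_of_pos (rm_ord m (a i)) hm)
    have hc : t.Coprime (∏ i, addOrderOf (ZMod.toAddCircle (a i) : UnitAddCircle)) :=
      Nat.Coprime.prod_right (fun i hi => ht i hi)
    obtain ⟨t', ht', hc'⟩ := h1 _ m t hL hm hc
    have hcm : t'.Coprime m := Nat.Coprime.coprime_dvd_right (Dvd.intro_left _ rfl) hc'
    have h3 := (rm_sum h2 m N a t').mpr (h t' hcm)
    rw [← h3]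
    refine Finset.sum_congr rfl (fun i hi => ?_)
    have e : t • (ZMod.toAddCircle (a i) : UnitAddCircle) = t' • ZMod.toAddCircle (a i) := by
      rw [nsmul_eq_nsmul_iff_modEq]
      exact (Nat.ModEq.of_dvd (Finset.dvd_prod_of_mem _ hi) ht').symm
    exact congrArg sw e

end Pool.Agent.FC
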