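import Pool.Agent.Lib.MP_640417_ag.FC.SpecB

set_option autoImplicit false

noncomputable section

namespace Pool.Agent.FC

open Finset

/-- the product polynomial at `χ' g` -/
private theorem rt_aeval {p m N : ℕ} [Fact p.Prime] (v d : Fin N → ℕ) (g : (ZMod p)ˣ)
    (P : Fin N → Polynomial ℤ)
    (hP : ∀ i, ∀ (R : Type) [CommRing R] (χ : MulChar (ZMod p) R),
      GP m χ (v i) = Polynomial.aeval (χ (g : ZMod p)) (P i))
    (R : Type) [CommRing R] (χ : MulChar (ZMod p) R) :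
    Polynomial.aeval (χ (g : ZMod p)) (∏ i, (P i ^ d i) ^ 2) =
      ∏ i, (GP m χ (v i) ^ d i) ^ 2 := by
  rw [map_prod]
  refine Finset.prod_congr rfl fun i _ => ?_
  rw [map_pow, map_pow, hP]

private theorem rt_sum {m N : ℕ} (hm : 0 < m) (w : Fin N → ℕ)
    (h : 2 * ∑ i, (w i % m) = N * m) : ∑ i, 2 * (m - w i % m) = N * m := by
  have h1 : ∑ i : Fin N, (2 * (m - w i % m) + 2 * (w i % m)) = ∑ _i : Fin N, 2 * m := by
    refine Finset.sum_congr rfl fun i _ => ?_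
    have := Nat.mod_lt (w i) hm
    omega
  rw [Finset.sum_add_distrib, ← Finset.mul_sum (f := fun i => w i % m), h] at h1
  simp only [Finset.sum_const, Finset.card_univ, Fintype.card_fin, smul_eq_mul] at h1
  have h2 : N * (2 * m) = 2 * (N * m) := by ring
  omega

private theorem rt_prim {p : ℕ} [Fact p.Prime] (ω : MulChar (ZMod p) ℤ_[p])
    (hω : ∀ x : ZMod p, PadicInt.toZMod (ω x) = x) (g : (ZMod p)ˣ)
    (hg : ∀ x : (ZMod p)ˣ, x ∈ Subgroup.zpowers g) :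
    IsPrimitiveRoot (ω (g : ZMod p)) (p - 1) := by
  have hord : orderOf g = p - 1 := by
    rw [orderOf_eq_card_of_forall_mem_zpowers hg, Nat.card_eq_fintype_card,
      ZMod.card_units_eq_totient, Nat.totient_prime (Fact.out : p.Prime)]
  have hval : ∀ n : ℕ, ω (g : ZMod p) ^ n = ω ((g ^ n : (ZMod p)ˣ) : ZMod p) := by
    intro n
    rw [Units.val_pow_eq_pow_val, map_pow]
  constructor
  · rw [hval, ← hord, pow_orderOf_eq_one, Units.val_one, map_one]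
  · intro n hn
    rw [hval] at hn
    have h1 := hω ((g ^ n : (ZMod p)ˣ) : ZMod p)
    rw [hn, map_one] at h1
    have h2 : g ^ n = 1 := Units.ext h1.symm
    rw [← hord]
    exact orderOf_dvd_of_pow_eq_one h2

theorem tRT (h1 : S_Tei) (h2 : S_Chr) (h3 : S_Gp) (h4 : S_Pol) (h5 : S_EV) (h6 : S_Div)
    (h7 : S_Kro) : S_RT := by
  intro m N _ a ha hrel p _ hmp χ hχ ψ hψ
  have hp : p.Prime := Fact.out
  have hm : 0 < m := Nat.pos_of_ne_zero (NeZero.ne m)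
  obtain ⟨ω, hω⟩ := h1 p
  obtain ⟨g, hg⟩ := IsCyclic.exists_generator (α := (ZMod p)ˣ)
  have hv : ∀ i, ¬ m ∣ (a i).val := by
    intro i hi
    have h8 : (a i).val < m := ZMod.val_lt (a i)
    have h9 : (a i).val = 0 := Nat.eq_zero_of_dvd_of_lt hi h8
    exact ha i ((ZMod.val_eq_zero (a i)).1 h9)
  have hP : ∀ i, ∃ P : Polynomial ℤ, ∀ (R : Type) [CommRing R] (χ : MulChar (ZMod p) R),
      GP m χ (a i).val = Polynomial.aeval (χ (g : ZMod p)) P := fun i => h4 p m (a i).val g hg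
  choose P hP using hP
  set Q : Polynomial ℤ := ∏ i, (P i ^ m.gcd (a i).val) ^ 2 with hQ
  have hae : ∀ (R : Type) [CommRing R] (χ : MulChar (ZMod p) R),
      Polynomial.aeval (χ (g : ZMod p)) Q = ∏ i, (GP m χ (a i).val ^ m.gcd (a i).val) ^ 2 :=
    fun R _ χ => rt_aeval (fun i => (a i).val) (fun i => m.gcd (a i).val) g P hP R χ
  obtain ⟨k', hk'⟩ := hmp
  have hp1 : 0 < p - 1 := Nat.sub_pos_of_lt hp.one_lt
  -- the values in `ℤ_[p]`
  have hA : ∀ r : ℤ_[p], IsPrimitiveRoot r m → (p : ℤ_[p]) ^ (N * m) ∣ Polynomial.aeval r Q := by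
    intro r hr
    have hprim := rt_prim ω hω g hg
    have hprim' : IsPrimitiveRoot (ω (g : ZMod p) ^ k') m :=
      hprim.pow hp1 (by rw [hk']; ring)
    obtain ⟨t, -, ht, hrt⟩ := hprim'.isPrimitiveRoot_iff.1 hr
    have h8 : (ω ^ (k' * t)) (g : ZMod p) = r := by
      rw [MulChar.pow_apply_coe, pow_mul, hrt]
    rw [← h8, hae]
    have h9 : ∀ i, ∃ u : ℤ_[p]ˣ, GP m (ω ^ (k' * t)) (a i).val ^ m.gcd (a i).val =
        p ^ (m - t * (a i).val % m) * u := fun i =>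
      h5 p m ω hω k' t (a i).val hk'.symm ht (hv i)
    choose u hu using h9
    have h10 : ∏ i, (GP m (ω ^ (k' * t)) (a i).val ^ m.gcd (a i).val) ^ 2 =
        (p : ℤ_[p]) ^ (N * m) * ∏ i, ((u i : ℤ_[p]) ^ 2) := by
      rw [← rt_sum hm (fun i => t * (a i).val) (hrel t ht), ← Finset.prod_pow_eq_pow_sum,
        ← Finset.prod_mul_distrib]
      refine Finset.prod_congr rfl fun i _ => ?_
      rw [hu i]
      ring
    rw [h10]
    exact dvd_mul_right _ _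
  obtain ⟨P', hP'⟩ := h6 p m (N * m) hm ⟨k', hk'⟩ Q hA
  -- the values in `ℂ`
  have hgs : ∀ (χ' : MulChar (ZMod p) ℂ), orderOf χ' = m →
      Polynomial.aeval (χ' (g : ZMod p)) Q =
        ((∏ i, gaussSum (χ' ^ (a i).val) ψ) ^ m) ^ 2 := by
    intro χ' hχ'
    rw [hae, ← pow_mul, ← Finset.prod_pow]
    refine Finset.prod_congr rfl fun i _ => ?_
    rw [← (h3 p m χ' ψ hm hχ' hψ (a i).val (hv i)).1, ← pow_mul, ← pow_mul, ← mul_assoc,
      Nat.div_mul_cancel (Nat.gcd_dvd_left _ _)]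
  have hnorm : ∀ (χ' : MulChar (ZMod p) ℂ), orderOf χ' = m →
      ‖Polynomial.aeval (χ' (g : ZMod p)) Q‖ = (p : ℝ) ^ (N * m) := by
    intro χ' hχ'
    rw [hgs χ' hχ', norm_pow, norm_pow, norm_prod, ← pow_mul, mul_comm m 2, pow_mul,
      ← Finset.prod_pow]
    have h8 : ∏ i, ‖gaussSum (χ' ^ (a i).val) ψ‖ ^ 2 = ∏ _i : Fin N, (p : ℝ) :=
      Finset.prod_congr rfl fun i _ => (h3 p m χ' ψ hm hχ' hψ (a i).val (hv i)).2
    rw [h8, Finset.prod_const, Finset.card_univ, Fintype.card_fin, ← pow_mul]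
  have hp0 : (0 : ℝ) < (p : ℝ) ^ (N * m) := pow_pos (Nat.cast_pos.2 hp.pos) _
  have hone : ∀ ζ : ℂ, IsPrimitiveRoot ζ m → ‖Polynomial.aeval ζ P'‖ = 1 := by
    intro ζ hζ
    have h8 : ζ ^ (p - 1) = 1 := by
      rw [hk', pow_mul, hζ.pow_eq_one, one_pow]
    obtain ⟨χ', hχ'⟩ := (h2 p g hg ℂ).2 ζ h8
    have h9 : orderOf χ' = m := ((h2 p g hg ℂ).1 χ' m hm).2 (by rw [hχ']; exact hζ)
    have h10 := hnorm χ' h9
    rw [hχ', hP' ζ hζ, norm_mul, norm_pow, Complex.norm_natCast] at h10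
    exact mul_left_cancel₀ hp0.ne' (h10.trans (mul_one _).symm)
  have hζ : IsPrimitiveRoot (χ (g : ZMod p)) m := ((h2 p g hg ℂ).1 χ m hm).1 hχ
  obtain ⟨k, hk, hk1⟩ := h7 m P' hm hone (χ (g : ZMod p)) hζ
  refine ⟨m * k, Nat.mul_pos hm hk, ?_⟩
  have h8 := hgs χ hχ
  rw [hP' _ hζ] at h8
  have h9 : (∏ i, gaussSum (χ ^ (a i).val) ψ) ^ (2 * (m * k)) =
      (((∏ i, gaussSum (χ ^ (a i).val) ψ) ^ m) ^ 2) ^ k := by
    rw [← pow_mul, ← pow_mul]
    congr 1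
    ring
  rw [h9, ← h8, mul_pow, hk1, mul_one, ← pow_mul]
  congr 1
  ring

end Pool.Agent.FC
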