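import Pool.Agent.Lib.MP_640417_ag.FC.SpecB

/-!
# MP_640417_ag, FC, module Red: reduction to bounded level modulo the group `HD`
-/

set_option autoImplicit false

noncomputable section

namespace Pool.Agent.FC

open Finset

private theorem red_coe (r : ℝ) : ((r : ℝ) : UnitAddCircle) = 0 ↔ ∃ n : ℤ, (n : ℝ) = r := by
  rw [AddCircle.coe_eq_zero_iff]
  simp

/-- elements killed by `M` are of level `M` -/
private theorem red_level (M : ℕ) [NeZero M] (x : UnitAddCircle) (h : M • x = 0) :
    ∃ y : ZMod M, ZMod.toAddCircle y = x := by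
  obtain ⟨r, rfl⟩ := QuotientAddGroup.mk_surjective x
  have h1 : ((M • r : ℝ) : UnitAddCircle) = 0 := h
  obtain ⟨n, hn⟩ := (red_coe _).1 h1
  refine ⟨(n : ZMod M), ?_⟩
  have h2 : (M : ℝ) ≠ 0 := Nat.cast_ne_zero.2 (NeZero.ne M)
  rw [ZMod.toAddCircle_intCast, hn, nsmul_eq_mul, mul_div_cancel_left₀ r h2]

/-- a tuple indexed by a finset -/
private theorem red_tuple (h2 : S_IT) {ι : Type} (s : Finset ι) (M : ℕ) [NeZero M]
    (x : ι → UnitAddCircle) (hM : ∀ i ∈ s, M • x i = 0) (h0 : ∀ i ∈ s, x i ≠ 0)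
    (hr : RelOn s x) (hs : ∑ i ∈ s, x i = 0) :
    ∃ a' : Fin s.card → ZMod M, IsTate M a' ∧
      ∑ j, Finsupp.single (ZMod.toAddCircle (a' j)) (1 : ℤ) =
        ∑ i ∈ s, Finsupp.single (x i) (1 : ℤ) := by
  have hy : ∀ i : s, ∃ y : ZMod M, ZMod.toAddCircle y = x i := fun i =>
    red_level M (x i) (hM i i.2)
  choose y hy using hy
  have hsum : ∀ (A : Type) [AddCommMonoid A] (f : UnitAddCircle → A),
      ∑ j, f (ZMod.toAddCircle (y (s.equivFin.symm j))) = ∑ i ∈ s, f (x i) := by
    intro A _ f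
    rw [Equiv.sum_comp s.equivFin.symm (fun i => f (ZMod.toAddCircle (y i))),
      ← sum_coe_sort s (fun i => f (x i))]
    refine sum_congr rfl fun i _ => ?_
    rw [hy]
  refine ⟨fun j => y (s.equivFin.symm j), ?_, hsum _ fun z => Finsupp.single z (1 : ℤ)⟩
  rw [h2]
  refine ⟨fun j hj => ?_, ?_, fun t ht => ?_⟩
  · have h3 := hy (s.equivFin.symm j)
    rw [hj, map_zero] at h3
    exact h0 _ (s.equivFin.symm j).2 h3.symm
  · refine ZMod.toAddCircle_injective M ?_
    rw [map_zero, map_sum]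
    exact (hsum _ id).trans hs
  · have h4 := hr t (fun i hi => by
      have h5 := ht (s.equivFin ⟨i, hi⟩) (mem_univ _)
      have h6 : ZMod.toAddCircle (y (s.equivFin.symm (s.equivFin ⟨i, hi⟩))) = x i := by
        rw [Equiv.symm_apply_apply, hy]
      exact h6 ▸ h5)
    exact (hsum _ fun z => sw (t • z)).trans h4

private theorem red_half_ne : ((1 / 2 : ℝ) : UnitAddCircle) ≠ 0 := by
  rw [Ne, red_coe]
  rintro ⟨n, hn⟩
  have h1 : ((2 * n : ℤ) : ℝ) = ((1 : ℤ) : ℝ) := by
    push_cast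
    linarith
  have h2 : 2 * n = 1 := by exact_mod_cast h1
  omega

private theorem red_two_half : 2 • ((1 / 2 : ℝ) : UnitAddCircle) = 0 := by
  have h1 : ((2 • (1 / 2 : ℝ) : ℝ) : UnitAddCircle) = 0 := (red_coe _).2 ⟨1, by norm_num⟩
  exact h1

/-- the element of order two is in `HD` -/
private theorem red_half_mem : Finsupp.single ((1 / 2 : ℝ) : UnitAddCircle) (1 : ℤ) ∈ HD := by
  have e1 : 2 • ((1 / 4 : ℝ) : UnitAddCircle) = ((1 / 2 : ℝ) : UnitAddCircle) := by
    have h1 : ((2 • (1 / 4 : ℝ) : ℝ) : UnitAddCircle) = ((1 / 2 : ℝ) : UnitAddCircle) := by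
      congr 1
      norm_num
    exact h1
  have e2 : -((1 / 4 : ℝ) : UnitAddCircle) =
      ((1 / 4 : ℝ) : UnitAddCircle) + ((1 / 2 : ℝ) : UnitAddCircle) := by
    rw [neg_eq_iff_add_eq_zero, ← add_assoc, ← two_nsmul, e1, ← two_nsmul, red_two_half]
  have h0 : ((1 / 4 : ℝ) : UnitAddCircle) ≠ 0 := by
    intro h
    rw [h, smul_zero] at e1
    exact red_half_ne e1.symm
  have h1 : Finsupp.single ((1 / 4 : ℝ) : UnitAddCircle) (1 : ℤ) +
      Finsupp.single (-((1 / 4 : ℝ) : UnitAddCircle)) (1 : ℤ) ∈ HD :=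
    AddSubgroup.subset_closure (Or.inl ⟨_, h0, rfl⟩)
  have h2 : ∑ j ∈ range 2, Finsupp.single
      (((1 / 4 : ℝ) : UnitAddCircle) + ((j / (2 : ℕ) : ℝ) : UnitAddCircle)) (1 : ℤ) -
      Finsupp.single (2 • ((1 / 4 : ℝ) : UnitAddCircle)) (1 : ℤ) ∈ HD := by
    refine AddSubgroup.subset_closure (Or.inr ⟨2, _, two_ne_zero, ?_, rfl⟩)
    rw [e1]
    exact red_half_ne
  rw [sum_range_succ, sum_range_one, e1] at h2
  have e3 : (((0 : ℕ) / (2 : ℕ) : ℝ) : UnitAddCircle) = 0 := by
    rw [red_coe]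
    exact ⟨0, by norm_num⟩
  have e4 : (((1 : ℕ) / (2 : ℕ) : ℝ) : UnitAddCircle) = ((1 / 2 : ℝ) : UnitAddCircle) := by
    congr 1
    norm_num
  rw [e3, e4, add_zero, ← e2] at h2
  have h3 := HD.sub_mem h1 h2
  rwa [sub_sub_cancel] at h3

/-- half of a natural number -/
private theorem red_half_even (k : ℕ) (h : Even k) : ((k / 2 : ℝ) : UnitAddCircle) = 0 := by
  obtain ⟨q, rfl⟩ := h
  rw [red_coe]
  refine ⟨q, ?_⟩
  push_cast
  ring

private theorem red_half_odd (k : ℕ) (h : Odd k) :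
    ((k / 2 : ℝ) : UnitAddCircle) = ((1 / 2 : ℝ) : UnitAddCircle) := by
  obtain ⟨q, rfl⟩ := h
  have h1 : (((2 * q + 1 : ℕ) / 2 : ℝ)) = ((2 * q : ℕ) / 2 : ℝ) + 1 / 2 := by
    push_cast
    ring
  rw [h1, AddCircle.coe_add, red_half_even _ ⟨q, by ring⟩, zero_add]

private theorem red_order : addOrderOf ((1 / 2 : ℝ) : UnitAddCircle) = 2 := by
  have : Fact (Nat.Prime 2) := ⟨Nat.prime_two⟩
  exact addOrderOf_eq_prime red_two_half red_half_ne

private theorem red_nsmul_half (t : ℕ) (h : Odd t) :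
    t • ((1 / 2 : ℝ) : UnitAddCircle) = ((1 / 2 : ℝ) : UnitAddCircle) := by
  have h1 : t • ((1 / 2 : ℝ) : UnitAddCircle) = ((t • (1 / 2 : ℝ) : ℝ) : UnitAddCircle) := rfl
  rw [h1, ← red_half_odd t h]
  congr 1
  rw [nsmul_eq_mul]
  ring

/-- adding the element of order two to a tuple -/
private theorem red_option (h1 : S_Sw) {ι : Type} (s : Finset ι) (x : ι → UnitAddCircle)
    (hr : RelOn s x) :
    RelOn (insertNone s) (fun o : Option ι => o.elim ((1 / 2 : ℝ) : UnitAddCircle) x) := by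
  intro t ht
  rw [sum_insertNone]
  have h2 : t.Coprime 2 := by
    have h3 := ht none (by simp)
    have h6 : addOrderOf ((1 / 2 : ℝ) : UnitAddCircle) = 2 := red_order
    exact h6 ▸ h3
  have h4 : Odd t := Nat.coprime_two_right.1 h2
  simp only [Option.elim_none, Option.elim_some]
  rw [red_nsmul_half t h4, h1.2.1, Int.fract_eq_self.2 (by norm_num)]
  have h5 := hr t (fun i hi => ht (some i) (by simpa using hi))
  rw [h5]
  norm_num

/-- `MM N` is even -/
private theorem red_even (N : ℕ) (hN : 1 ≤ N) : 2 ∣ MM N := by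
  have h1 : 2 ∈ Icc 1 ((32 * N) ^ (2 * N)) := by
    rw [mem_Icc]
    refine ⟨by norm_num, ?_⟩
    have h2 : (32 * N) ^ 1 ≤ (32 * N) ^ (2 * N) := Nat.pow_le_pow_right (by omega) (by omega)
    rw [pow_one] at h2
    exact le_trans (by omega) h2
  exact Finset.dvd_lcm (f := id) h1

theorem tRed (h1 : S_Sw) (h2 : S_IT) : S_Red := by
  intro m N _ a ha hdec
  obtain ⟨b, u, c, hnone, hrel, hblk⟩ := hdec
  obtain ⟨ha0, hasum, harel⟩ := (h2 m N a).1 ha
  have hx0 : ∀ i, ZMod.toAddCircle (a i) ≠ 0 := fun i hi => ha0 i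
    (ZMod.toAddCircle_injective m (by rw [hi, map_zero]))
  -- the blocks
  have hB : ∀ β : Fin N, ∑ i with b i = some β,
      Finsupp.single (ZMod.toAddCircle (a i)) (1 : ℤ) ∈ HD := by
    intro β
    obtain ⟨_, _, _, ⟨w, hw, hxw⟩, h5⟩ := hblk β
    have h6 := (h5 w hw (fun i hi => by rw [← hxw i hi]; exact hx0 i)).2
    rw [sum_congr rfl fun i hi => by rw [← hxw i hi]] at h6
    exact h6
  have hS : ∑ i, Finsupp.single (ZMod.toAddCircle (a i)) (1 : ℤ) =
      ∑ i with b i = none, Finsupp.single (ZMod.toAddCircle (a i)) (1 : ℤ) +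
      ∑ β : Fin N, ∑ i with b i = some β, Finsupp.single (ZMod.toAddCircle (a i)) (1 : ℤ) := by
    rw [← Fintype.sum_option (fun o => ∑ i with b i = o,
      Finsupp.single (ZMod.toAddCircle (a i)) (1 : ℤ)), sum_fiberwise]
  have hBs : ∑ β : Fin N, ∑ i with b i = some β,
      Finsupp.single (ZMod.toAddCircle (a i)) (1 : ℤ) ∈ HD := sum_mem fun β _ => hB β
  have hZM : ∀ i ∈ (univ.filter fun i => b i = none), MM N • ZMod.toAddCircle (a i) = 0 :=
    fun i hi => hnone i (mem_filter.1 hi).2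
  have hZs : ∑ i with b i = none, ZMod.toAddCircle (a i) =
      (((univ.filter fun i => b i = none).card / 2 : ℝ) : UnitAddCircle) := by
    refine h1.2.2.2.1 _ _ _ ?_
    have h7 := hrel 1 (fun i _ => Nat.coprime_one_left _)
    simpa using h7
  have hZN : (univ.filter fun i => b i = none).card ≤ N := by
    refine (card_filter_le _ _).trans ?_
    rw [card_univ, Fintype.card_fin]
  rcases Nat.even_or_odd (univ.filter fun i => b i = none).card with he | ho
  · obtain ⟨a', ha', hsum⟩ := red_tuple h2 (univ.filter fun i => b i = none) (MM N)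
      (fun i => ZMod.toAddCircle (a i)) hZM (fun i _ => hx0 i) hrel (by
        rw [hZs, red_half_even _ he])
    refine ⟨_, a', hZN, ha', ?_⟩
    rw [hsum, hS, add_sub_cancel_left]
    exact hBs
  · have hNe : Even N := by
      have h8 := h1.2.2.2.1 (Fin N) univ (fun i => ZMod.toAddCircle (a i)) (by
        have h7 := harel 1 (fun i _ => Nat.coprime_one_left _)
        simpa using h7)
      rw [← map_sum, hasum, map_zero, card_univ, Fintype.card_fin] at h8
      by_contra h9
      rw [Nat.not_even_iff_odd] at h9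
      rw [red_half_odd N h9] at h8
      exact red_half_ne h8.symm
    have hN1 : (univ.filter fun i => b i = none).card + 1 ≤ N := by
      rcases hZN.lt_or_eq with h8 | h8
      · exact h8
      · rw [h8] at ho
        exact absurd hNe (Nat.not_even_iff_odd.2 ho)
    obtain ⟨a', ha', hsum⟩ := red_tuple h2 (insertNone (univ.filter fun i => b i = none)) (MM N)
      (fun o : Option (Fin N) => o.elim ((1 / 2 : ℝ) : UnitAddCircle)
        fun i => ZMod.toAddCircle (a i)) (by
        intro o ho'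
        cases o with
        | none =>
          obtain ⟨q, hq⟩ := red_even N (by omega)
          rw [Option.elim_none, hq, mul_comm, mul_smul, red_two_half, smul_zero]
        | some i => exact hZM i (by simpa using ho')) (by
        intro o _
        cases o with
        | none => exact red_half_ne
        | some i => exact hx0 i) (red_option h1 _ _ hrel) (by
        rw [sum_insertNone]
        simp only [Option.elim_none, Option.elim_some]
        rw [hZs, red_half_odd _ ho, ← two_nsmul, red_two_half])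
    refine ⟨_, a', ?_, ha', ?_⟩
    · rw [card_insertNone]
      exact hN1
    · rw [hsum, hS, sum_insertNone]
      simp only [Option.elim_none, Option.elim_some]
      have h9 : ∀ p q r : UnitAddCircle →₀ ℤ, p + q - (r + p) = q - r := fun p q r => by abel
      rw [h9]
      exact HD.sub_mem hBs red_half_mem

end Pool.Agent.FC
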