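import Pool.Agent.Lib.MP_640417_ag.FC.SpecB

/-!
# FE, part B: the solutions of `K θ = x` modulo the group `HD`
-/

noncomputable section

namespace Pool.Agent.FC

open Finset

private theorem Roots_nsmul (n : ℕ) (hn : 0 < n) (j : ℕ) :
    n • (((j / n : ℝ)) : UnitAddCircle) = 0 := by
  rw [← AddCircle.coe_nsmul, nsmul_eq_mul]
  have h1 : (n : ℝ) * (j / n) = j := by
    have : (n : ℝ) ≠ 0 := by exact_mod_cast hn.ne'
    field_simp
  rw [h1]
  have h2 : ((j : ℝ) : UnitAddCircle) = j • ((1 : ℝ) : UnitAddCircle) := by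
    rw [← AddCircle.coe_nsmul, nsmul_eq_mul, mul_one]
  rw [h2, AddCircle.coe_period, smul_zero]

private theorem Roots_inj (n : ℕ) (hn : 0 < n) (y : UnitAddCircle) :
    ∀ j ∈ range n, ∀ k ∈ range n,
      y + (((j / n : ℝ)) : UnitAddCircle) = y + (((k / n : ℝ)) : UnitAddCircle) → j = k := by
  intro j hj k hk h
  rw [mem_range] at hj hk
  have hn' : (0 : ℝ) < n := by exact_mod_cast hn
  have h1 := add_left_cancel h
  have hin : ∀ i : ℕ, i < n → (i / n : ℝ) ∈ Set.Ico (0 : ℝ) (0 + 1) := by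
    intro i hi
    refine ⟨by positivity, ?_⟩
    rw [zero_add, div_lt_one hn']
    exact_mod_cast hi
  have h2 := (AddCircle.coe_eq_coe_iff_of_mem_Ico (hin j hj) (hin k hk)).mp h1
  rw [div_left_inj' hn'.ne'] at h2
  exact_mod_cast h2

private theorem Roots_pos (n : ℕ) (hn : 0 < n) (x : UnitAddCircle) (hx : x ≠ 0) :
    ∃ s : Finset UnitAddCircle, (∀ θ, θ ∈ s ↔ n • θ = x) ∧
      Finsupp.single x (1 : ℤ) - ∑ θ ∈ s, Finsupp.single θ (1 : ℤ) ∈ HD := by
  classical
  have hn' : (n : ℝ) ≠ 0 := by exact_mod_cast hn.ne'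
  obtain ⟨r, rfl⟩ := QuotientAddGroup.mk_surjective x
  set x : UnitAddCircle := QuotientAddGroup.mk r with hxdef
  set y : UnitAddCircle := (((r / n : ℝ)) : UnitAddCircle) with hy
  have hyx : n • y = x := by
    rw [hy, ← AddCircle.coe_nsmul, nsmul_eq_mul]
    have h1 : (n : ℝ) * (r / n) = r := by field_simp
    rw [h1]
  refine ⟨(range n).image fun j : ℕ => y + (((j / n : ℝ)) : UnitAddCircle), ?_, ?_⟩
  · intro θ
    rw [mem_image]
    constructor
    · rintro ⟨j, _, rfl⟩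
      rw [smul_add, Roots_nsmul n hn j, add_zero, hyx]
    · intro h
      have h1 : n • (θ - y) = 0 := by rw [smul_sub, h, hyx, sub_self]
      obtain ⟨m, hm, hm2⟩ := (AddCircle.nsmul_eq_zero_iff hn).mp h1
      refine ⟨m, mem_range.mpr hm, ?_⟩
      rw [mul_one] at hm2
      rw [hm2, add_sub_cancel]
  · rw [sum_image (Roots_inj n hn y)]
    have h2 : (∑ j ∈ range n, Finsupp.single (y + (((j / n : ℝ)) : UnitAddCircle)) (1 : ℤ)) -
        Finsupp.single (n • y) 1 ∈ HD := by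
      refine AddSubgroup.subset_closure (Or.inr ⟨n, y, hn.ne', ?_, rfl⟩)
      rw [hyx]
      exact hx
    have h3 := HD.neg_mem h2
    rw [neg_sub, hyx] at h3
    exact h3

theorem tRootsB : S_RootsB := by
  intro K x hK hx
  rcases lt_or_gt_of_ne hK with h | h
  · obtain ⟨s, hs1, hs2⟩ := Roots_pos K.natAbs (Int.natAbs_pos.mpr hK) (-x) (neg_ne_zero.mpr hx)
    refine ⟨s, ?_, ?_⟩
    · intro θ
      rw [hs1 θ]
      have h1 : K = -(K.natAbs : ℤ) := by omega
      have h2 : K • θ = -(K.natAbs • θ) := by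
        conv_lhs => rw [h1]
        rw [neg_smul, natCast_zsmul]
      rw [h2, neg_eq_iff_eq_neg]
    · rw [Int.sign_eq_neg_one_of_neg h, neg_smul, one_smul, sub_neg_eq_add]
      have h3 : Finsupp.single x (1 : ℤ) + Finsupp.single (-x) 1 ∈ HD :=
        AddSubgroup.subset_closure (Or.inl ⟨x, hx, rfl⟩)
      have h4 := HD.sub_mem h3 hs2
      have h5 : Finsupp.single x (1 : ℤ) + Finsupp.single (-x) 1
          - (Finsupp.single (-x) (1 : ℤ) - ∑ θ ∈ s, Finsupp.single θ (1 : ℤ))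
          = Finsupp.single x (1 : ℤ) + ∑ θ ∈ s, Finsupp.single θ (1 : ℤ) := by abel
      rw [h5] at h4
      exact h4
  · obtain ⟨s, hs1, hs2⟩ := Roots_pos K.natAbs (Int.natAbs_pos.mpr hK) x hx
    refine ⟨s, ?_, ?_⟩
    · intro θ
      rw [hs1 θ]
      have h1 : K = (K.natAbs : ℤ) := by omega
      have h2 : K • θ = K.natAbs • θ := by
        conv_lhs => rw [h1]
        rw [natCast_zsmul]
      rw [h2]
    · rw [Int.sign_eq_one_of_pos h, one_smul]
      exact hs2

end Pool.Agent.FC
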