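import Pool.Agent.Lib.MP_640417_ag.FC.SpecB

/-!
# The function `sw`
-/

set_option autoImplicit false

noncomputable section

namespace Pool.Agent.FC

open Finset

private theorem sw_coe (r : ℝ) : sw (r : UnitAddCircle) = Int.fract r - 1 / 2 := by
  unfold sw
  have h := AddCircle.coe_equivIco_mk_apply (1 : ℝ) r
  rw [div_one, mul_one] at h
  rw [← h]

private theorem coe_fract (r : ℝ) : ((Int.fract r : ℝ) : UnitAddCircle) = (r : UnitAddCircle) := by
  rw [Int.fract, AddCircle.coe_sub]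
  have h : ((⌊r⌋ : ℝ) : UnitAddCircle) = 0 := by
    rw [AddCircle.coe_eq_zero_iff]
    exact ⟨⌊r⌋, by simp⟩
  rw [h, sub_zero]

private theorem ex_coe (x : UnitAddCircle) : ∃ r : ℝ, (r : UnitAddCircle) = x :=
  QuotientAddGroup.mk_surjective x

/-- Hermite's identity for the fractional parts -/
private theorem hermite (n : ℕ) (hn : 0 < n) (r : ℝ) :
    ∑ j ∈ range n, (Int.fract (r + j / n) - 1 / 2) = Int.fract (n * r) - 1 / 2 := by
  have hn' : (0 : ℝ) < n := by exact_mod_cast hn
  have hper : Function.Periodic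
      (fun r : ℝ => ∑ j ∈ range n, Int.fract (r + j / n) - Int.fract (n * r)) (1 / n) := by
    intro s
    change ∑ j ∈ range n, Int.fract (s + 1 / n + j / n) - Int.fract (n * (s + 1 / n)) =
      ∑ j ∈ range n, Int.fract (s + j / n) - Int.fract (n * s)
    have h1 : (n : ℝ) * (s + 1 / n) = n * s + 1 := by
      field_simp
    rw [h1, Int.fract_add_one]
    have h2 : ∑ j ∈ range n, Int.fract (s + 1 / n + j / n) =
        ∑ j ∈ range n, Int.fract (s + (j + 1 : ℕ) / n) := by
      apply sum_congr rfl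
      intro j _
      congr 1
      push_cast
      ring
    have h3 := sum_range_succ (fun j : ℕ => Int.fract (s + (j : ℝ) / n)) n
    have h4 := sum_range_succ' (fun j : ℕ => Int.fract (s + (j : ℝ) / n)) n
    have h5 : Int.fract (s + (n : ℝ) / n) = Int.fract s := by
      rw [div_self hn'.ne', Int.fract_add_one]
    rw [h2]
    simp only [Nat.cast_zero, zero_div, add_zero] at h4
    rw [h5] at h3
    linarith
  obtain ⟨k, hk⟩ : ∃ k : ℤ, k = ⌊(n : ℝ) * r⌋ := ⟨_, rfl⟩
  obtain ⟨s, hs⟩ : ∃ s : ℝ, s = r - k • (1 / (n : ℝ)) := ⟨_, rfl⟩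
  have h1 := hper.sub_zsmul_eq k (x := r)
  rw [← hs] at h1
  change ∑ j ∈ range n, Int.fract (s + (j : ℝ) / n) - Int.fract (n * s) =
    ∑ j ∈ range n, Int.fract (r + (j : ℝ) / n) - Int.fract (n * r) at h1
  have hns : (n : ℝ) * s = Int.fract ((n : ℝ) * r) := by
    rw [hs, hk, Int.fract]
    simp only [zsmul_eq_mul]
    field_simp
  have hs0 : 0 ≤ (n : ℝ) * s := by
    rw [hns]
    exact Int.fract_nonneg _
  have hs1 : (n : ℝ) * s < 1 := by
    rw [hns]
    exact Int.fract_lt_one _
  have hfr : ∀ j ∈ range n, Int.fract (s + (j : ℝ) / n) = s + (j : ℝ) / n := by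
    intro j hj
    rw [Int.fract_eq_self]
    have hj' : (j : ℝ) + 1 ≤ n := by exact_mod_cast mem_range.1 hj
    have h0 : s + (j : ℝ) / n = (n * s + j) / n := by
      field_simp
    rw [h0]
    constructor
    · positivity
    · rw [div_lt_one hn']
      linarith
  have h2 : ∑ j ∈ range n, Int.fract (s + (j : ℝ) / n) = n * s + (n - 1) / 2 := by
    rw [sum_congr rfl hfr, sum_add_distrib, sum_const, card_range, nsmul_eq_mul, ← sum_div]
    have h3 : (∑ j ∈ range n, (j : ℝ)) * 2 = n * (n - 1) := by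
      have h4 := Finset.sum_range_id_mul_two n
      have h5 : (((∑ j ∈ range n, j) * 2 : ℕ) : ℝ) = ((n * (n - 1) : ℕ) : ℝ) := by rw [h4]
      push_cast [Nat.cast_sub (by omega : 1 ≤ n)] at h5
      exact h5
    have h6 : (∑ j ∈ range n, (j : ℝ)) = n * (n - 1) / 2 := by linarith
    rw [h6]
    field_simp
  have h3 : Int.fract ((n : ℝ) * s) = n * s := by
    rw [Int.fract_eq_self]
    exact ⟨hs0, hs1⟩
  rw [h2, h3] at h1
  rw [sum_sub_distrib, sum_const, card_range, nsmul_eq_mul]
  linarith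

theorem tSw : S_Sw := by
  refine ⟨?_, sw_coe, ?_, ?_, ?_⟩
  · intro x
    obtain ⟨r, rfl⟩ := ex_coe x
    rw [sw_coe, abs_le]
    constructor
    · linarith [Int.fract_nonneg r]
    · linarith [Int.fract_lt_one r]
  · intro x hx
    obtain ⟨r, rfl⟩ := ex_coe x
    have h0 : Int.fract r ≠ 0 := by
      intro h
      apply hx
      rw [← coe_fract, h]
      rfl
    rw [← AddCircle.coe_neg, sw_coe, sw_coe, Int.fract_neg h0]
    ring
  · intro ι s x h
    have h1 : ∀ i, x i = ((sw (x i) + 1 / 2 : ℝ) : UnitAddCircle) := by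
      intro i
      obtain ⟨r, hr⟩ := ex_coe (x i)
      rw [← hr, sw_coe, sub_add_cancel, coe_fract]
    have h2 : ∑ i ∈ s, x i = ((∑ i ∈ s, (sw (x i) + 1 / 2) : ℝ) : UnitAddCircle) := by
      rw [sum_congr rfl fun i _ => h1 i]
      exact (map_sum (QuotientAddGroup.mk' (AddSubgroup.zmultiples (1 : ℝ))) _ _).symm
    rw [h2, sum_add_distrib, h, zero_add, sum_const, nsmul_eq_mul]
    congr 1
    ring
  · intro n y hn
    obtain ⟨r, rfl⟩ := ex_coe y
    have h1 : ∀ j ∈ range n, sw ((r : UnitAddCircle) + ((j / n : ℝ) : UnitAddCircle)) =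
        Int.fract (r + j / n) - 1 / 2 := by
      intro j _
      rw [← AddCircle.coe_add, sw_coe]
    rw [sum_congr rfl h1, hermite n hn r, ← AddCircle.coe_nsmul, sw_coe, nsmul_eq_mul]

end Pool.Agent.FC
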