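import Pool.Agent.Lib.MP_640417_ag.FC.SpecB

/-! THEOREM FE, part B: one product of Gauss sums gives Stickelberger's relation. -/

set_option autoImplicit false

noncomputable section

namespace Pool.Agent.FC

open Finset

private theorem TR_notdvd {m : ℕ} [NeZero m] {x : ZMod m} (hx : x ≠ 0) : ¬ m ∣ x.val := by
  intro h
  have h1 : x.val < m := ZMod.val_lt x
  have h2 : x.val = 0 := Nat.eq_zero_of_dvd_of_lt h h1
  exact hx ((ZMod.val_eq_zero x).1 h2)

private theorem TR_order {p : ℕ} [hp : Fact p.Prime] (g : (ZMod p)ˣ)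
    (hg : ∀ x : (ZMod p)ˣ, x ∈ Subgroup.zpowers g) : orderOf g = p - 1 := by
  rw [orderOf_eq_card_of_forall_mem_zpowers hg, Nat.card_eq_fintype_card, ZMod.card_units]

private theorem TR_prim {p : ℕ} [hp : Fact p.Prime] (ω : MulChar (ZMod p) ℤ_[p])
    (hω : ∀ x : ZMod p, PadicInt.toZMod (ω x) = x) (g : (ZMod p)ˣ)
    (hg : ∀ x : (ZMod p)ˣ, x ∈ Subgroup.zpowers g) : IsPrimitiveRoot (ω (g : ZMod p)) (p - 1) := by
  have ho := TR_order g hg
  constructor
  · rw [← map_pow, ← Units.val_pow_eq_pow_val, ← ho, pow_orderOf_eq_one, Units.val_one, map_one]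
  · intro l hl
    have h1 : PadicInt.toZMod (ω (g : ZMod p) ^ l) = (1 : ZMod p) := by rw [hl, map_one]
    rw [map_pow, hω] at h1
    have h2 : g ^ l = 1 := by
      ext
      rw [Units.val_pow_eq_pow_val, h1, Units.val_one]
    rw [← ho]
    exact orderOf_dvd_of_pow_eq_one h2

private theorem TR_arith {N m k : ℕ} (hk : 0 < k) (f : Fin N → ℕ) (hf : ∀ i, f i ≤ m)
    (h : ∑ i, (m - f i) * (2 * k) = N * k * m) : 2 * ∑ i, f i = N * m := by
  have h1 : ∑ i, (m - f i) + ∑ i, f i = N * m := by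
    rw [← sum_add_distrib]
    rw [Finset.sum_congr rfl (fun i _ => Nat.sub_add_cancel (hf i))]
    simp
  rw [← Finset.sum_mul] at h
  have h2 : (∑ i, (m - f i)) * 2 = N * m := by
    have : k * ((∑ i, (m - f i)) * 2) = k * (N * m) := by
      calc k * ((∑ i, (m - f i)) * 2) = (∑ i, (m - f i)) * (2 * k) := by ring
        _ = N * k * m := h
        _ = k * (N * m) := by ring
    exact Nat.eq_of_mul_eq_mul_left hk this
  omega

theorem tTR (h1 : S_Tr) (h2 : S_Tei) (h3 : S_Chr) (h4 : S_Gp) (h5 : S_Pol) (h6 : S_EV) : S_TR := by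
  intro m N _ a ha p hp hmp χ hχ ψ hψ k hk hprod t ht
  have hm : 0 < m := NeZero.pos m
  have hnd : ∀ i, ¬ m ∣ (a i).val := fun i => TR_notdvd (ha i)
  obtain ⟨g, hg⟩ := IsCyclic.exists_generator (α := (ZMod p)ˣ)
  obtain ⟨k', hk'⟩ := hmp
  obtain ⟨ω, hω⟩ := h2 p
  choose P hP using fun i => h5 p m (a i).val g hg
  -- the power of the hypothesis
  have e1 : ∀ i, GP m χ (a i).val ^ m.gcd (a i).val = gaussSum (χ ^ (a i).val) ψ ^ m := by
    intro i
    rw [← (h4 p m χ ψ hm hχ hψ _ (hnd i)).1, ← pow_mul,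
      Nat.div_mul_cancel (Nat.gcd_dvd_left m (a i).val)]
  have e2 : ∏ i, (GP m χ (a i).val ^ m.gcd (a i).val) ^ (2 * k) = (p : ℂ) ^ (N * k * m) := by
    rw [pow_mul (p : ℂ) (N * k) m, ← hprod, ← pow_mul, ← Finset.prod_pow]
    refine Finset.prod_congr rfl fun i _ => ?_
    rw [e1 i, ← pow_mul]
    congr 1
    ring
  -- the polynomial
  set Q : Polynomial ℤ := ∏ i, (P i ^ m.gcd (a i).val) ^ (2 * k) -
    Polynomial.C ((p : ℤ) ^ (N * k * m)) with hQ
  have e3 : ∀ (R : Type) [CommRing R] (φ : MulChar (ZMod p) R),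
      Polynomial.aeval (φ (g : ZMod p)) Q =
        ∏ i, (GP m φ (a i).val ^ m.gcd (a i).val) ^ (2 * k) - (p : R) ^ (N * k * m) := by
    intro R _ φ
    rw [hQ, map_sub, map_prod]
    congr 1
    · refine Finset.prod_congr rfl fun i _ => ?_
      rw [map_pow, map_pow, ← hP i R φ]
    · rw [Polynomial.aeval_C, map_pow]
      simp
  have hζ : IsPrimitiveRoot (χ (g : ZMod p)) m := ((h3 p g hg ℂ).1 χ m hm).1 hχ
  have e4 : Polynomial.aeval (χ (g : ZMod p)) Q = 0 := by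
    rw [e3 ℂ χ, e2, sub_self]
  -- transfer
  have hp1 : 0 < p - 1 := Nat.sub_pos_of_lt hp.out.one_lt
  have hr : IsPrimitiveRoot ((ω ^ (k' * t)) (g : ZMod p)) m := by
    rw [MulChar.pow_apply_coe, pow_mul]
    have h7 : IsPrimitiveRoot (ω (g : ZMod p) ^ k') m :=
      (TR_prim ω hω g hg).pow hp1 (by rw [hk', mul_comm])
    exact h7.pow_of_coprime t ht
  have e5 := h1 m Q _ hm hζ e4 ℤ_[p] _ hr
  rw [e3 ℤ_[p] (ω ^ (k' * t)), sub_eq_zero] at e5
  choose u hu using fun i => h6 p m ω hω k' t (a i).val hk'.symm ht (hnd i)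
  have e6 : ∏ i, ((p : ℤ_[p]) ^ (m - t * (a i).val % m) * (u i : ℤ_[p])) ^ (2 * k) =
      (p : ℤ_[p]) ^ (N * k * m) := by
    rw [← e5]
    exact Finset.prod_congr rfl fun i _ => by rw [hu i]
  have e7 : (‖(p : ℤ_[p])‖) ^ (∑ i, (m - t * (a i).val % m) * (2 * k)) =
      ‖(p : ℤ_[p])‖ ^ (N * k * m) := by
    have h8 := congrArg (fun z : ℤ_[p] => ‖z‖) e6
    simp only [norm_prod, norm_pow, norm_mul, PadicInt.norm_units, mul_one] at h8
    rw [← h8, ← Finset.prod_pow_eq_pow_sum]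
    exact Finset.prod_congr rfl fun i _ => by rw [pow_mul]
  have h9 : ‖(p : ℤ_[p])‖ = (p : ℝ)⁻¹ := PadicInt.norm_p
  have hp2 : (1 : ℝ) < p := by exact_mod_cast hp.out.one_lt
  have h10 : ∑ i, (m - t * (a i).val % m) * (2 * k) = N * k * m := by
    rw [h9, inv_pow, inv_pow, inv_inj] at e7
    exact Nat.pow_right_injective hp.out.two_le (by exact_mod_cast e7)
  exact TR_arith hk _ (fun i => (Nat.mod_lt _ hm).le) h10

end Pool.Agent.FC
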