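import Pool.Agent.Lib.MP_640417_ag.FC.SpecB

/-! # FE, part B: the Teichmueller character -/

noncomputable section

namespace Pool.Agent.FC

open Finset

private theorem Tei_val_coprime (p : ℕ) [hp : Fact p.Prime] (η : (ZMod p)ˣ) :
    p.Coprime (η : ZMod p).val := by
  rw [hp.out.coprime_iff_not_dvd, ← ZMod.natCast_eq_zero_iff, ZMod.natCast_zmod_val]
  exact η.ne_zero

private theorem Tei_exT (p : ℕ) [hp : Fact p.Prime] (η : (ZMod p)ˣ) :
    ∃ T : ℤ_[p], T ^ (p - 1) = 1 ∧ (p : ℤ_[p]) ∣ T - ((η : ZMod p).val : ℤ_[p]) := by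
  have hc := Tei_val_coprime p η
  have hp1 : 1 < p := hp.out.one_lt
  set a : ℤ_[p] := ((η : ZMod p).val : ℤ_[p]) with ha
  let F : Polynomial ℤ_[p] := Polynomial.X ^ (p - 1) - 1
  have h1 : ‖Polynomial.aeval a F‖ < 1 := by
    have e1 : Polynomial.aeval a F = (((((η : ZMod p).val : ℤ) ^ (p - 1) - 1 : ℤ)) : ℤ_[p]) := by
      simp [F, ha]
    rw [e1, PadicInt.norm_int_lt_one_iff_dvd, ← ZMod.intCast_zmod_eq_zero_iff_dvd]
    push_cast
    rw [ZMod.natCast_zmod_val, ZMod.pow_card_sub_one_eq_one η.ne_zero, sub_self]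
  have h2 : ‖Polynomial.aeval a (Polynomial.derivative F)‖ = 1 := by
    have e1 : Polynomial.aeval a (Polynomial.derivative F) =
        (((p - 1) * (η : ZMod p).val ^ (p - 1 - 1) : ℕ) : ℤ_[p]) := by
      simp only [F, Polynomial.derivative_sub, Polynomial.derivative_X_pow,
        Polynomial.derivative_one, sub_zero, map_mul, map_pow, Polynomial.aeval_X,
        Nat.cast_mul, Nat.cast_pow, ← ha, map_natCast]
    rw [e1, PadicInt.norm_natCast_eq_one_iff]
    refine Nat.Coprime.mul_right ?_ (hc.pow_right _)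
    rw [hp.out.coprime_iff_not_dvd]
    intro h
    have := Nat.le_of_dvd (by omega) h
    omega
  obtain ⟨T, hT1, hT2, _, _⟩ := hensels_lemma (F := F) (a := a) (by rw [h2, one_pow]; exact h1)
  refine ⟨T, ?_, ?_⟩
  · have e1 : Polynomial.aeval T F = T ^ (p - 1) - 1 := by simp [F]
    rw [e1] at hT1
    exact sub_eq_zero.1 hT1
  · rw [h2] at hT2
    exact (PadicInt.norm_lt_one_iff_dvd _).1 hT2

private theorem Tei_uniq (p : ℕ) [hp : Fact p.Prime] (A B : ℤ_[p]) (hA : A ^ (p - 1) = 1)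
    (hB : B ^ (p - 1) = 1) (h : (p : ℤ_[p]) ∣ A - B) : A = B := by
  have aux : ∀ C : ℤ_[p], C ^ (p - 1) = 1 → ∀ n : ℕ, C ^ p ^ n = C := by
    intro C hC n
    have h1 : C ^ p = C := by
      have e : p = p - 1 + 1 := (Nat.sub_add_cancel hp.out.one_lt.le).symm
      calc C ^ p = C ^ (p - 1 + 1) := congrArg (fun k : ℕ => C ^ k) e
        _ = C := by rw [pow_succ, hC, one_mul]
    induction n with
    | zero => rw [pow_zero, pow_one]
    | succ n ih => rw [pow_succ, pow_mul, ih, h1]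
  by_contra hne
  have hfin : FiniteMultiplicity (p : ℤ_[p]) (A - B) :=
    FiniteMultiplicity.of_not_isUnit (PadicInt.prime_p).not_isUnit (sub_ne_zero.mpr hne)
  obtain ⟨n, hn⟩ := hfin
  apply hn
  have h3 := dvd_sub_pow_of_dvd_sub h n
  rwa [aux A hA n, aux B hB n] at h3

private theorem Tei_toZMod (p : ℕ) [hp : Fact p.Prime] (T : ℤ_[p]) (v : ℕ)
    (h : (p : ℤ_[p]) ∣ T - (v : ℤ_[p])) : PadicInt.toZMod T = (v : ZMod p) := by
  obtain ⟨c, hc⟩ := h
  have h1 := congrArg (PadicInt.toZMod (p := p)) hc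
  rw [map_sub, map_mul, map_natCast, map_natCast, ZMod.natCast_self, zero_mul] at h1
  exact sub_eq_zero.mp h1

theorem tTei : S_Tei := by
  intro p hp
  choose T hT1 hT2 using Tei_exT p
  have hz : ∀ x : (ZMod p)ˣ, PadicInt.toZMod (T x) = (x : ZMod p) := by
    intro x
    rw [Tei_toZMod p _ _ (hT2 x), ZMod.natCast_zmod_val]
  have hu : ∀ A B : ℤ_[p], A ^ (p - 1) = 1 → B ^ (p - 1) = 1 →
      PadicInt.toZMod A = PadicInt.toZMod B → A = B := by
    intro A B hA hB hAB
    apply Tei_uniq p A B hA hB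
    have h1 : PadicInt.toZMod (A - B) = 0 := by rw [map_sub, hAB, sub_self]
    have h2 : A - B ∈ RingHom.ker (PadicInt.toZMod (p := p)) := h1
    rw [PadicInt.ker_toZMod, PadicInt.maximalIdeal_eq_span_p, Ideal.mem_span_singleton] at h2
    exact h2
  let f : (ZMod p)ˣ →* ℤ_[p] :=
    { toFun := T
      map_one' := hu _ _ (hT1 1) (one_pow _) (by rw [hz, map_one, Units.val_one])
      map_mul' := fun x y => hu _ _ (hT1 _) (by rw [mul_pow, hT1, hT1, one_mul])
        (by rw [hz, map_mul, hz, hz, Units.val_mul]) }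
  refine ⟨MulChar.ofUnitHom f.toHomUnits, ?_⟩
  intro x
  by_cases hx : x = 0
  · subst hx
    rw [MulChar.map_zero, map_zero]
  · obtain ⟨u, rfl⟩ := (isUnit_iff_ne_zero.mpr hx)
    rw [MulChar.ofUnitHom_coe]
    exact hz u

end Pool.Agent.FC
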