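import Pool.Agent.Lib.MP_640417_ag.FC.SpecB

/-!
# MP_640417_ag, FC, Tot: the number of sums of pairs
-/

set_option autoImplicit false

noncomputable section

namespace Pool.Agent.FC

open Finset

private theorem sum_le_biUnion {α β : Type} [DecidableEq α] [DecidableEq β] (S : Finset α)
    (A : α → Finset β) (B : ℕ)
    (h : ∀ σ ∈ S, ∀ τ ∈ S, σ ≠ τ → (A σ ∩ A τ).card ≤ B) :
    ∑ σ ∈ S, (A σ).card ≤ (S.biUnion A).card + S.card ^ 2 * B := by
  induction S using Finset.induction_on with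
  | empty => simp
  | insert σ S hσ ih =>
    have ih' := ih fun a ha b hb hab =>
      h a (mem_insert_of_mem ha) b (mem_insert_of_mem hb) hab
    rw [Finset.sum_insert hσ, Finset.biUnion_insert, Finset.card_insert_of_notMem hσ]
    have h1 : (A σ ∩ S.biUnion A).card ≤ S.card * B := by
      rw [Finset.inter_biUnion]
      refine Finset.card_biUnion_le_card_mul _ _ _ fun τ hτ => ?_
      exact h σ (mem_insert_self _ _) τ (mem_insert_of_mem hτ) (fun e => hσ (e ▸ hτ))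
    have h2 := Finset.card_union_add_card_inter (A σ) (S.biUnion A)
    have h3 : (S.card + 1) ^ 2 * B = S.card ^ 2 * B + S.card * B + S.card * B + B := by ring
    rw [h3]
    omega

private theorem bern (n : ℕ) : ∀ r : ℕ, (n + 1) ^ (r + 1) ≤ n ^ (r + 1) + (r + 1) * (n + 1) ^ r := by
  intro r
  induction r with
  | zero => simp
  | succ r ih =>
    have h1 : n * (n + 1) ^ r ≤ (n + 1) ^ (r + 1) := by
      rw [pow_succ, mul_comm]
      exact Nat.mul_le_mul_left _ (Nat.le_succ n)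
    have h2 := Nat.mul_le_mul_left n ih
    have h3 := Nat.mul_le_mul_left (r + 1) h1
    calc (n + 1) ^ (r + 1 + 1) = n * (n + 1) ^ (r + 1) + (n + 1) ^ (r + 1) := by ring
      _ ≤ n * (n ^ (r + 1) + (r + 1) * (n + 1) ^ r) + (n + 1) ^ (r + 1) := by gcongr
      _ = n ^ (r + 1 + 1) + (r + 1) * (n * (n + 1) ^ r) + (n + 1) ^ (r + 1) := by ring
      _ ≤ n ^ (r + 1 + 1) + (r + 1) * (n + 1) ^ (r + 1) + (n + 1) ^ (r + 1) := by gcongr
      _ = _ := by ring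

theorem tTotB (h1 : S_Mat) (h2 : S_Fix) (h3 : S_Int) : S_TotB := by
  classical
  intro r hr
  refine ⟨Nat.doubleFactorial (2 * r - 1) * r + Nat.doubleFactorial (2 * r - 1) ^ 2, ?_⟩
  intro m hm
  set K := Nat.doubleFactorial (2 * r - 1) with hK
  let S : Finset (Equiv.Perm (Fin (2 * r))) := univ.filter fun σ => ∀ i, σ (σ i) = i ∧ σ i ≠ i
  let A : Equiv.Perm (Fin (2 * r)) → Finset (Fin (2 * r) → ZMod m) := fun σ =>
    univ.filter fun a => (∀ i, a i ≠ 0) ∧ ∀ i, a (σ i) = -a i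
  have hSmem : ∀ σ, σ ∈ S ↔ ∀ i, σ (σ i) = i ∧ σ i ≠ i := fun σ => by simp [S]
  have hAmem : ∀ σ a, a ∈ A σ ↔ (∀ i, a i ≠ 0) ∧ ∀ i, a (σ i) = -a i := fun σ a => by simp [A]
  have hS : S.card = K := by
    have e : ({σ : Equiv.Perm (Fin (2 * r)) | ∀ i, σ (σ i) = i ∧ σ i ≠ i}) = (S : Set _) := by
      ext σ
      rw [Finset.mem_coe, hSmem]
      rfl
    have h := h1 r
    rw [e, Set.ncard_coe_finset] at h
    exact h
  have hA : ∀ σ ∈ S, (A σ).card = (m - 1) ^ r := by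
    intro σ hσ
    have e : ({a : Fin (2 * r) → ZMod m | (∀ i, a i ≠ 0) ∧ ∀ i, a (σ i) = -a i}) =
        (A σ : Set _) := by
      ext a
      rw [Finset.mem_coe, hAmem]
      rfl
    have h := h2 r m σ ((hSmem σ).1 hσ)
    rw [e, Set.ncard_coe_finset] at h
    exact h
  have hI : ∀ σ ∈ S, ∀ τ ∈ S, σ ≠ τ → (A σ ∩ A τ).card ≤ m ^ (r - 1) := by
    intro σ hσ τ hτ hne
    refine le_trans ?_ (h3 r m σ τ ((hSmem σ).1 hσ) ((hSmem τ).1 hτ) hne)
    rw [← Set.ncard_coe_finset]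
    refine Set.ncard_le_ncard ?_ (Set.toFinite _)
    intro a ha
    rw [Finset.mem_coe, Finset.mem_inter, hAmem, hAmem] at ha
    exact fun i => ⟨ha.1.2 i, ha.2.2 i⟩
  have hT : ({a : Fin (2 * r) → ZMod m | (∀ i, a i ≠ 0) ∧ PairSum a}).ncard =
      (S.biUnion A).card := by
    rw [← Set.ncard_coe_finset]
    apply congrArg
    ext a
    rw [Finset.mem_coe, Finset.mem_biUnion]
    constructor
    · rintro ⟨ha, σ, hσ⟩
      exact ⟨σ, (hSmem σ).2 fun i => ⟨(hσ i).1, (hσ i).2.1⟩, (hAmem σ a).2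
        ⟨ha, fun i => (hσ i).2.2⟩⟩
    · rintro ⟨σ, hσ, ha⟩
      have ha' := (hAmem σ a).1 ha
      have hσ' := (hSmem σ).1 hσ
      exact ⟨ha'.1, σ, fun i => ⟨(hσ' i).1, (hσ' i).2, ha'.2 i⟩⟩
  have hup : (S.biUnion A).card ≤ K * (m - 1) ^ r := by
    rw [← hS]
    exact Finset.card_biUnion_le_card_mul _ _ _ fun σ hσ => (hA σ hσ).le
  have hlow : K * (m - 1) ^ r ≤ (S.biUnion A).card + K ^ 2 * m ^ (r - 1) := by
    have h := sum_le_biUnion S A (m ^ (r - 1)) hI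
    rw [Finset.sum_congr rfl hA, Finset.sum_const, smul_eq_mul, hS] at h
    exact h
  have hb : m ^ r ≤ (m - 1) ^ r + r * m ^ (r - 1) := by
    have h := bern (m - 1) (r - 1)
    have hm1 : m - 1 + 1 = m := Nat.succ_pred_eq_of_pos (NeZero.pos m)
    rw [Nat.sub_add_cancel hr, hm1] at h
    exact h
  have hle : (m - 1) ^ r ≤ m ^ r := Nat.pow_le_pow_left (Nat.sub_le m 1) r
  rw [hT, abs_le]
  have hup' : ((S.biUnion A).card : ℤ) ≤ K * ((m - 1 : ℕ) : ℤ) ^ r := by exact_mod_cast hup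
  have hlow' : (K : ℤ) * ((m - 1 : ℕ) : ℤ) ^ r ≤
      ((S.biUnion A).card : ℤ) + (K : ℤ) ^ 2 * (m : ℤ) ^ (r - 1) := by exact_mod_cast hlow
  have hb' : (K : ℤ) * (m : ℤ) ^ r ≤
      (K : ℤ) * (((m - 1 : ℕ) : ℤ) ^ r + r * (m : ℤ) ^ (r - 1)) := by
    have h : (m : ℤ) ^ r ≤ ((m - 1 : ℕ) : ℤ) ^ r + r * (m : ℤ) ^ (r - 1) := by exact_mod_cast hb
    exact mul_le_mul_of_nonneg_left h (Int.natCast_nonneg K)
  have hle' : (K : ℤ) * ((m - 1 : ℕ) : ℤ) ^ r ≤ (K : ℤ) * (m : ℤ) ^ r := by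
    have h : ((m - 1 : ℕ) : ℤ) ^ r ≤ (m : ℤ) ^ r := by exact_mod_cast hle
    exact mul_le_mul_of_nonneg_left h (Int.natCast_nonneg K)
  have hnn : (0 : ℤ) ≤ ((K * r + K ^ 2 : ℕ) : ℤ) * (m : ℤ) ^ (r - 1) := by positivity
  have hcast : ((K * r + K ^ 2 : ℕ) : ℤ) * (m : ℤ) ^ (r - 1) =
      (K : ℤ) * (r * (m : ℤ) ^ (r - 1)) + (K : ℤ) ^ 2 * (m : ℤ) ^ (r - 1) := by
    push_cast
    ring
  rw [mul_add] at hb'
  constructor
  · rw [hcast]
    linarith
  · linarith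

end Pool.Agent.FC
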