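import Pool.Agent.Lib.MP_640417_ag.FC.SpecB

/-!
# MP_640417_ag, project FC part B, module Tr (helper4)
-/

set_option autoImplicit false

noncomputable section

namespace Pool.Agent.FC

open Finset

theorem tTr : S_Tr := by
  intro m P ζ hm hζ hP R _ _ r hr
  have hint : IsIntegral ℤ ζ := hζ.isIntegral hm
  have h1 : minpoly ℤ ζ ∣ P := minpoly.isIntegrallyClosed_dvd hint hP
  rw [← Polynomial.cyclotomic_eq_minpoly hζ hm] at h1
  obtain ⟨Q, rfl⟩ := h1
  have h2 : Polynomial.aeval r (Polynomial.cyclotomic m ℤ) = 0 := by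
    have h3 := hr.isRoot_cyclotomic hm
    rw [← Polynomial.map_cyclotomic m (algebraMap ℤ R), Polynomial.IsRoot.def,
      Polynomial.eval_map_algebraMap] at h3
    exact h3
  rw [map_mul, h2, zero_mul]

end Pool.Agent.FC
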